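import Pool.Agent.H82.TO.As1

/-! # [H88 TF JCV] The constant of the stratum `j = 2`: `Jc = 3 √5/4 + log((1+√5)/2)/2` (helper88)

`Ph t = 2` for `t^2 + t ≤ 1`, `Ph t = 2 - (t^2+t-1)^2/(2 t^3)` for `t^2 + t ≥ 1`. -/

namespace Pool.Agent.H88.TF

open Pool.Agent.H82.TO

/-- `(√5 - 1)/2` -/
noncomputable def gr : ℝ := (Real.sqrt 5 - 1) / 2

theorem gr_eq : gr ^ 2 + gr = 1 := by
  have h := Real.sq_sqrt (show (0 : ℝ) ≤ 5 by norm_num)
  unfold gr
  nlinarith

theorem gr_pos : 0 < gr := by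
  have h : (1 : ℝ) < Real.sqrt 5 := by
    rw [Real.lt_sqrt (by norm_num)]
    norm_num
  unfold gr
  linarith

theorem gr_lt : gr < 1 := by
  have h1 := gr_eq
  have h2 := gr_pos
  nlinarith

theorem Ph_low {t : ℝ} (h0 : 0 < t) (h1 : t ≤ gr) : Ph t = 2 := by
  unfold Ph
  have h2 : ∀ γ ∈ Set.uIcc (-1 : ℝ) 1, min 1 (1 / t - γ * t) = (fun _ : ℝ => (1 : ℝ)) γ := by
    intro γ hγ
    rw [Set.uIcc_of_le (by norm_num)] at hγ
    refine min_eq_left ?_
    have h3 : t ^ 2 + t ≤ 1 := by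
      have := gr_eq
      nlinarith [gr_pos]
    have h4 : 1 + γ * t ≤ 1 / t := by
      rw [le_div_iff₀ h0]
      nlinarith [hγ.2, mul_pos h0 h0]
    linarith
  rw [intervalIntegral.integral_congr h2, intervalIntegral.integral_const]
  norm_num

theorem Ph_high {t : ℝ} (h0 : gr ≤ t) (h1 : t ≤ 1) : Ph t = 2 - (t ^ 2 + t - 1) ^ 2 / (2 * t ^ 3) := by
  have ht : 0 < t := lt_of_lt_of_le gr_pos h0
  have hq : 1 ≤ t ^ 2 + t := by
    have := gr_eq
    nlinarith [gr_pos]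
  obtain ⟨a, ha⟩ : ∃ a : ℝ, a = (1 - t) / t ^ 2 := ⟨_, rfl⟩
  have hat : a * t ^ 2 = 1 - t := by
    rw [ha]
    field_simp
  have ha0 : 0 ≤ a := by
    rw [ha]
    exact div_nonneg (by linarith) (by positivity)
  have ha1 : a ≤ 1 := by
    rw [ha, div_le_one (by positivity)]
    linarith
  have hinv : 1 / t = 1 + a * t := by
    rw [div_eq_iff ht.ne']
    nlinarith
  unfold Ph
  have hint : ∀ x y : ℝ, IntervalIntegrable (fun γ : ℝ => min 1 (1 / t - γ * t)) MeasureTheory.volume x y :=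
    fun x y => (cont_min t).intervalIntegrable x y
  rw [← intervalIntegral.integral_add_adjacent_intervals (hint (-1) a) (hint a 1)]
  have e1 : ∫ γ in (-1 : ℝ)..a, min 1 (1 / t - γ * t) = ∫ _γ in (-1 : ℝ)..a, (1 : ℝ) := by
    refine intervalIntegral.integral_congr fun γ hγ => ?_
    rw [Set.uIcc_of_le (by linarith)] at hγ
    refine min_eq_left ?_
    rw [hinv]
    nlinarith [hγ.2]
  have e2 : ∫ γ in a..1, min 1 (1 / t - γ * t) = ∫ γ in a..1, (1 / t - γ * t) := by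
    refine intervalIntegral.integral_congr fun γ hγ => ?_
    rw [Set.uIcc_of_le ha1] at hγ
    refine min_eq_right ?_
    rw [hinv]
    nlinarith [hγ.1]
  have e3 : ∫ γ in a..1, (1 / t - γ * t) = (1 - a) * (1 / t) - (1 ^ 2 - a ^ 2) / 2 * t := by
    rw [intervalIntegral.integral_sub (continuous_const.intervalIntegrable _ _) (Continuous.intervalIntegrable (by fun_prop) _ _),
      intervalIntegral.integral_const, intervalIntegral.integral_mul_const, integral_id, smul_eq_mul]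
  rw [e1, e2, e3, intervalIntegral.integral_const, smul_eq_mul, hinv, ha]
  field_simp
  ring

theorem Jc_eq : Jc = 3 * Real.sqrt 5 / 4 + Real.log ((1 + Real.sqrt 5) / 2) / 2 := by
  have hg0 := gr_pos
  have hg1 := gr_lt
  have hge := gr_eq
  have h5 : Real.sqrt 5 = 2 * gr + 1 := by
    unfold gr
    ring
  have hint1 : IntervalIntegrable Ps MeasureTheory.volume 0 gr :=
    Ps_int.mono_set (by rw [Set.uIcc_of_le hg0.le, Set.uIcc_of_le zero_le_one]; exact Set.Icc_subset_Icc_right hg1.le)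
  have hint2 : IntervalIntegrable Ps MeasureTheory.volume gr 1 :=
    Ps_int.mono_set (by rw [Set.uIcc_of_le hg1.le, Set.uIcc_of_le zero_le_one]; exact Set.Icc_subset_Icc_left hg0.le)
  unfold Jc
  rw [← intervalIntegral.integral_add_adjacent_intervals hint1 hint2]
  have e1 : ∫ t in (0 : ℝ)..gr, Ps t = ∫ _t in (0 : ℝ)..gr, (2 : ℝ) := by
    refine intervalIntegral.integral_congr fun t ht => ?_
    rw [Set.uIcc_of_le hg0.le] at ht
    show Ps t = 2
    unfold Ps
    split_ifs with h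
    · rfl
    · exact Ph_low (not_le.1 h) ht.2
  have e2 : ∫ t in gr..1, Ps t = ∫ t in gr..1, (2 - (t ^ 2 + t - 1) ^ 2 / (2 * t ^ 3)) := by
    refine intervalIntegral.integral_congr fun t ht => ?_
    rw [Set.uIcc_of_le hg1.le] at ht
    show Ps t = 2 - (t ^ 2 + t - 1) ^ 2 / (2 * t ^ 3)
    unfold Ps
    rw [if_neg (not_le.2 (lt_of_lt_of_le hg0 ht.1))]
    exact Ph_high ht.1 ht.2
  have e3 : ∫ t in gr..1, (2 - (t ^ 2 + t - 1) ^ 2 / (2 * t ^ 3)) =
      (2 * (1 : ℝ) - ((1 : ℝ) ^ 2 / 2 + 2 * 1 - Real.log 1 + 2 / 1 - 1 / (2 * (1 : ℝ) ^ 2)) / 2) -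
        (2 * gr - (gr ^ 2 / 2 + 2 * gr - Real.log gr + 2 / gr - 1 / (2 * gr ^ 2)) / 2) := by
    refine intervalIntegral.integral_eq_sub_of_hasDerivAt
      (f := fun t : ℝ => 2 * t - (t ^ 2 / 2 + 2 * t - Real.log t + 2 / t - 1 / (2 * t ^ 2)) / 2) ?_ ?_
    · intro t ht
      rw [Set.uIcc_of_le hg1.le] at ht
      have ht0 : 0 < t := lt_of_lt_of_le hg0 ht.1
      have d1 : HasDerivAt (fun t : ℝ => 2 * t) (2 * 1) t := (hasDerivAt_id t).const_mul 2
      have d2 : HasDerivAt (fun t : ℝ => t ^ 2 / 2) ((2 : ℕ) * t ^ (2 - 1) / 2) t := (hasDerivAt_pow 2 t).div_const 2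
      have d3 : HasDerivAt (fun t : ℝ => Real.log t) t⁻¹ t := Real.hasDerivAt_log ht0.ne'
      have d4 : HasDerivAt (fun t : ℝ => 2 / t) ((0 * t - 2 * 1) / t ^ 2) t :=
        (hasDerivAt_const t (2 : ℝ)).div (hasDerivAt_id t) ht0.ne'
      have d5 : HasDerivAt (fun t : ℝ => 1 / (2 * t ^ 2)) ((0 * (2 * t ^ 2) - 1 * (2 * ((2 : ℕ) * t ^ (2 - 1)))) / (2 * t ^ 2) ^ 2) t :=
        (hasDerivAt_const t (1 : ℝ)).div ((hasDerivAt_pow 2 t).const_mul 2) (by positivity)
      have d6 := d1.sub (((((d2.add d1).sub d3).add d4).sub d5).div_const 2)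
      refine d6.congr_deriv ?_
      field_simp
      ring
    · refine ContinuousOn.intervalIntegrable ?_
      rw [Set.uIcc_of_le hg1.le]
      refine ContinuousOn.sub continuousOn_const (ContinuousOn.div (by fun_prop) (by fun_prop) ?_)
      intro t ht
      have ht0 : 0 < t := lt_of_lt_of_le hg0 ht.1
      positivity
  rw [e1, e2, e3, intervalIntegral.integral_const, smul_eq_mul]
  have f1 : 1 / gr = 1 + gr := by
    rw [div_eq_iff hg0.ne']
    nlinarith
  have f2 : 1 / gr ^ 2 = 2 + gr := by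
    rw [div_eq_iff (by positivity)]
    nlinarith
  have f3 : 2 / gr = 2 + 2 * gr := by
    have : 2 / gr = 2 * (1 / gr) := by ring
    rw [this, f1]
    ring
  have f4 : 1 / (2 * gr ^ 2) = 1 + gr / 2 := by
    have : 1 / (2 * gr ^ 2) = (1 / gr ^ 2) / 2 := by
      field_simp
    rw [this, f2]
    ring
  have f5 : Real.log ((1 + Real.sqrt 5) / 2) = -Real.log gr := by
    have h6 : (1 + Real.sqrt 5) / 2 = gr⁻¹ := by
      rw [← one_div, f1, h5]
      ring
    rw [h6, Real.log_inv]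
  rw [f3, f4, f5, Real.log_one, h5]
  have f6 : gr ^ 2 = 1 - gr := by linarith
  rw [f6]
  ring

/-- the constant of the stratum `j = 2` -/
theorem c2_eq : 128 * Jc = 96 * Real.sqrt 5 + 64 * Real.log ((1 + Real.sqrt 5) / 2) := by
  rw [Jc_eq]
  ring

end Pool.Agent.H88.TF
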