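import Pool.Agent.H72.ES.Final
import Pool.Agent.H88.TS.Flx
import Pool.Agent.H12.TU.Hy4

/-! # [H88 TF CXR] Curves of the family with a line of contact `≥ n - 2` at infinity are few (`j ≤ n - 3`)

The coefficient of `x^j` in `(G + L)(x, t x + b)`, `φ_n(t) = 0`, `b` determined by `t` and `G`, is `A(t) + L_j(1, t)`: `L_j` is determined by `t` and the
terms of degree `> j` (`t` has degree `n > j`). -/

namespace Pool.Agent.H88.TF

open MvPolynomial Pool.Agent.H8.AA Pool.Agent.H88.A2
open Pool.Agent.H12.TU (Hy4)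

/-- restriction to a line -/
private theorem aeval_line {n : ℕ} {F : MvPolynomial (Fin 2) ℤ} (hd : F.totalDegree ≤ n) (θ β : ℝ) :
    MvPolynomial.aeval ![Polynomial.X, Polynomial.C θ * Polynomial.X + Polynomial.C β] F =
      ∑ i ∈ Finset.range (n + 1), ∑ j ∈ Finset.range (n + 1 - i),
        Polynomial.C (Pool.Agent.H72.ES.tc n (Pool.Agent.H72.ES.arrM F) θ i j * β ^ j) *
          (Polynomial.X : Polynomial ℝ) ^ (n - i - j) := by
  rw [← Pool.Agent.H72.ES.line_poly, ← Pool.Agent.H72.ES.eval₂_arrM hd, MvPolynomial.aeval_def]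
  congr 1

private theorem arrM_eq (F : MvPolynomial (Fin 2) ℤ) (a b : ℕ) : Pool.Agent.H72.ES.arrM F a b = ar F a b := rfl

private theorem arrM_add {j : ℕ} (G : MvPolynomial (Fin 2) ℤ) (c : Ix j → ℤ) (a b : ℕ) :
    Pool.Agent.H72.ES.arrM (G + pol c) a b = Pool.Agent.H72.ES.arrM G a b + co c a b := by
  rw [arrM_eq, ar_add, ar_pol, arrM_eq]

private theorem part_congr {n k : ℕ} {F F' : ℕ → ℕ → ℤ} (hk : k ≤ n) (h : ∀ a b, a + b = n - k → F a b = F' a b) :
    Pool.Agent.H72.ES.part n k F = Pool.Agent.H72.ES.part n k F' := by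
  unfold Pool.Agent.H72.ES.part
  refine Finset.sum_congr rfl fun b hb => ?_
  have := Finset.mem_range.1 hb
  rw [h (n - k - b) b (by omega)]

private theorem part_coeff {n k : ℕ} (E : ℕ → ℕ → ℤ) (a b : ℕ) (hk : k ≤ n) (hab : a + b = n - k) :
    (Pool.Agent.H72.ES.part n k E).coeff b = E a b := by
  unfold Pool.Agent.H72.ES.part
  simp only [Polynomial.finsetSum_coeff, Polynomial.coeff_C_mul, Polynomial.coeff_X_pow]
  rw [Finset.sum_eq_single b]
  · have h1 : n - k - b = a := by omega
    rw [if_pos rfl, mul_one, h1]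
  · intro l _ hl
    rw [if_neg (fun h2 => hl h2.symm), mul_zero]
  · intro h1
    exact absurd (Finset.mem_range.2 (by omega)) h1

private theorem part_deg (n k : ℕ) (E : ℕ → ℕ → ℤ) : (Pool.Agent.H72.ES.part n k E).natDegree ≤ n - k := by
  unfold Pool.Agent.H72.ES.part
  refine Polynomial.natDegree_sum_le_of_forall_le _ _ fun j hj => ?_
  have := Finset.mem_range.1 hj
  exact (Polynomial.natDegree_C_mul_X_pow_le _ _).trans (by omega)

private theorem deg_add {n j : ℕ} {G : MvPolynomial (Fin 2) ℤ} (hj : j < n) (hd : G.totalDegree ≤ n) (c : Ix j → ℤ) :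
    (G + pol c).totalDegree ≤ n :=
  (MvPolynomial.totalDegree_add _ _).trans (max_le hd ((Pool.Agent.H8.AA.pol_deg c).trans (by omega)))

/-- a real zero of the leading polynomial is no zero of a nonzero integer polynomial of degree `< n` -/
private theorem indep {n : ℕ} (E : ℕ → ℕ → ℤ) (ha : E 0 n ≠ 0) (hirr : Irreducible (Pool.Agent.H72.ES.leadQ n E)) (t : ℝ)
    (ht : Polynomial.aeval t (Pool.Agent.H72.ES.part n 0 E) = 0) (q : Polynomial ℤ) (hq : q.natDegree < n)
    (hq0 : Polynomial.aeval t q = 0) : q = 0 := by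
  have hmap : (Pool.Agent.H72.ES.part n 0 E).map (algebraMap ℤ ℚ) = Pool.Agent.H72.ES.leadQ n E := by
    unfold Pool.Agent.H72.ES.part Pool.Agent.H72.ES.leadQ
    rw [Polynomial.map_sum]
    refine Finset.sum_congr rfl fun j _ => ?_
    simp
  have h2 : Polynomial.aeval t (Pool.Agent.H72.ES.leadQ n E) = 0 := by
    rw [← hmap, Polynomial.aeval_map_algebraMap]
    exact ht
  have h3 : Polynomial.aeval t (q.map (algebraMap ℤ ℚ)) = 0 := by
    rw [Polynomial.aeval_map_algebraMap]
    exact hq0
  have hint : IsIntegral ℚ t := IsAlgebraic.isIntegral ⟨Pool.Agent.H72.ES.leadQ n E, hirr.ne_zero, h2⟩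
  have hmin : Associated (minpoly ℚ t) (Pool.Agent.H72.ES.leadQ n E) :=
    (minpoly.irreducible hint).associated_of_dvd hirr (minpoly.dvd ℚ t h2)
  have hd : Pool.Agent.H72.ES.leadQ n E ∣ q.map (algebraMap ℤ ℚ) := hmin.symm.dvd.trans (minpoly.dvd ℚ t h3)
  have hdeg : n ≤ (Pool.Agent.H72.ES.leadQ n E).natDegree := by
    refine Polynomial.le_natDegree_of_ne_zero ?_
    rw [← hmap, Polynomial.coeff_map, part_coeff E 0 n (by omega) (by omega)]
    simpa using ha
  by_contra hne
  have hne' : q.map (algebraMap ℤ ℚ) ≠ 0 := by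
    intro h4
    exact hne ((Polynomial.map_eq_zero_iff (RingHom.injective_int (algebraMap ℤ ℚ))).1 h4)
  have h5 := Polynomial.natDegree_le_of_dvd hd hne'
  have h6 : (q.map (algebraMap ℤ ℚ)).natDegree ≤ q.natDegree := Polynomial.natDegree_map_le
  omega

/-- a line of contact at least `n - 2` at infinity -/
def Lc (F : MvPolynomial (Fin 2) ℤ) (t b : ℝ) : Prop :=
  (MvPolynomial.aeval ![Polynomial.X, Polynomial.C t * Polynomial.X + Polynomial.C b] F : Polynomial ℝ).natDegree ≤ 2

theorem cxr (n j : ℕ) (G : MvPolynomial (Fin 2) ℤ) (h : Hy4 n j G) (hj : j + 3 ≤ n) (H : ℕ) (T : Finset (Ix j → ℤ))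
    (hT : ∀ c ∈ T, (∀ p, |c p| ≤ (H : ℤ)) ∧ ∃ t b : ℝ, Lc (G + pol c) t b) :
    T.card ≤ n * (2 * H + 1) ^ (Fintype.card (Ix j) - 3) := by
  classical
  have hn := h.hn
  have hj3 := h.hj
  have hjn := h.hjn
  obtain ⟨ha, hirr⟩ := Pool.Agent.H72.ES.leadQ_of_irreducible (by omega) h.irr
  obtain ⟨f, hf⟩ : ∃ f : Polynomial ℤ, f = Pool.Agent.H72.ES.part n 0 (Pool.Agent.H72.ES.arrM G) := ⟨_, rfl⟩
  have hz : ∀ (e : Ix j → ℤ) (a b : ℕ), j < a + b → co e a b = 0 := by
    intro e a b hab
    unfold co
    rw [dif_neg (by omega)]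
  have hp : ∀ (e : Ix j → ℤ) (k : ℕ), k ≤ n → j < n - k → Pool.Agent.H72.ES.part n k (Pool.Agent.H72.ES.arrM (G + pol e)) =
      Pool.Agent.H72.ES.part n k (Pool.Agent.H72.ES.arrM G) := by
    intro e k hk hk2
    refine part_congr hk fun a b hab => ?_
    rw [arrM_add, hz e a b (by omega), add_zero]
  have hf0 : f ≠ 0 := by
    intro h0
    have h1 := part_coeff (n := n) (k := 0) (Pool.Agent.H72.ES.arrM G) 0 n (by omega) (by omega)
    rw [← hf, h0, Polynomial.coeff_zero] at h1
    exact ha h1.symm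
  -- the coefficients on the line
  have hco : ∀ (e : Ix j → ℤ) (t b : ℝ), Lc (G + pol e) t b → ∀ s, s + 3 ≤ n → ∑ i ∈ Finset.range (s + 1),
      Pool.Agent.H72.ES.tc n (Pool.Agent.H72.ES.arrM (G + pol e)) t i (s - i) * b ^ (s - i) = 0 := by
    intro e t b hl s hs
    rw [← Pool.Agent.H72.ES.coeff_line n
      (fun i j => Pool.Agent.H72.ES.tc n (Pool.Agent.H72.ES.arrM (G + pol e)) t i j * b ^ j) s (by omega)]
    unfold Lc at hl
    rw [aeval_line (deg_add hjn h.deg e)] at hl
    exact Polynomial.coeff_eq_zero_of_natDegree_lt (by omega)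
  have hroot : ∀ (e : Ix j → ℤ) (t b : ℝ), Lc (G + pol e) t b → Polynomial.aeval t f = 0 := by
    intro e t b hl
    have c0 := hco e t b hl 0 (by omega)
    rw [Finset.sum_range_succ, Finset.sum_range_zero] at c0
    simp only [Nat.sub_self, pow_zero, mul_one, zero_add] at c0
    rw [Pool.Agent.H72.ES.tc_eq_eval, hp e 0 (by omega) (by omega), Polynomial.hasseDeriv_zero, LinearMap.id_apply, ← hf] at c0
    exact c0
  have hder : ∀ t : ℝ, Polynomial.aeval t f = 0 → Polynomial.aeval t (Polynomial.derivative f) ≠ 0 := by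
    intro t ht hd
    have hdeg : f.natDegree ≤ n := by
      rw [hf]
      exact (part_deg n 0 _).trans (by omega)
    have h1 : (Polynomial.derivative f).natDegree < n := by
      refine lt_of_le_of_lt (Polynomial.natDegree_derivative_le f) ?_
      omega
    have h2 := indep (Pool.Agent.H72.ES.arrM G) ha hirr t (by rw [← hf]; exact ht) _ h1 hd
    have h3 := Polynomial.derivative_eq_zero.1 h2
    have h4 : n ≤ f.natDegree := by
      refine Polynomial.le_natDegree_of_ne_zero ?_
      rw [hf, part_coeff (Pool.Agent.H72.ES.arrM G) 0 n (by omega) (by omega)]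
      exact ha
    omega
  -- uniqueness for one slope
  have huniq : ∀ (e e' : Ix j → ℤ) (t b b' : ℝ), Lc (G + pol e) t b → Lc (G + pol e') t b' →
      (∀ p : Ix j, p.1.1.val + p.1.2.val ≠ j → e' p = e p) → e' = e := by
    intro e e' t b b' hl hl' he
    have ht := hroot e t b hl
    have hd := hder t ht
    have htc : ∀ (x : Ix j → ℤ) (i l : ℕ), i ≤ n → j < n - i → Pool.Agent.H72.ES.tc n (Pool.Agent.H72.ES.arrM (G + pol x)) t i l =
        Polynomial.aeval t (Polynomial.hasseDeriv l (Pool.Agent.H72.ES.part n i (Pool.Agent.H72.ES.arrM G))) := by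
      intro x i l hi hji
      rw [Pool.Agent.H72.ES.tc_eq_eval, hp x i hi hji]
    have h01 : ∀ x : Ix j → ℤ, Pool.Agent.H72.ES.tc n (Pool.Agent.H72.ES.arrM (G + pol x)) t 0 1 =
        Polynomial.aeval t (Polynomial.derivative f) := by
      intro x
      rw [htc x 0 1 (by omega) (by omega), Polynomial.hasseDeriv_one, ← hf]
    have hbb : b' = b := by
      have c1 := hco e t b hl 1 (by omega)
      have c1' := hco e' t b' hl' 1 (by omega)
      rw [Finset.sum_range_succ, Finset.sum_range_succ, Finset.sum_range_zero] at c1 c1'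
      simp only [Nat.sub_zero, Nat.sub_self, pow_zero, mul_one, zero_add, pow_one] at c1 c1'
      rw [h01, htc _ 1 0 (by omega) (by omega)] at c1 c1'
      have h1 : Polynomial.aeval t (Polynomial.derivative f) * (b' - b) = 0 := by linear_combination c1' - c1
      rcases mul_eq_zero.1 h1 with h2 | h2
      · exact absurd h2 hd
      · linarith
    subst hbb
    have cj := hco e t b' hl (n - j) (by omega)
    have cj' := hco e' t b' hl' (n - j) (by omega)
    rw [Finset.sum_range_succ] at cj cj'
    have hsum : ∑ i ∈ Finset.range (n - j), Pool.Agent.H72.ES.tc n (Pool.Agent.H72.ES.arrM (G + pol e)) t i (n - j - i) * b' ^ (n - j - i) =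
        ∑ i ∈ Finset.range (n - j), Pool.Agent.H72.ES.tc n (Pool.Agent.H72.ES.arrM (G + pol e')) t i (n - j - i) * b' ^ (n - j - i) := by
      refine Finset.sum_congr rfl fun i hi => ?_
      have := Finset.mem_range.1 hi
      rw [htc e i _ (by omega) (by omega), htc e' i _ (by omega) (by omega)]
    rw [hsum] at cj
    have hlast : Pool.Agent.H72.ES.tc n (Pool.Agent.H72.ES.arrM (G + pol e)) t (n - j) 0 =
        Pool.Agent.H72.ES.tc n (Pool.Agent.H72.ES.arrM (G + pol e')) t (n - j) 0 := by
      rw [Nat.sub_self, pow_zero, mul_one] at cj cj'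
      linarith
    rw [Pool.Agent.H72.ES.tc_eq_eval, Pool.Agent.H72.ES.tc_eq_eval, Polynomial.hasseDeriv_zero, LinearMap.id_apply,
      LinearMap.id_apply] at hlast
    have hq := indep (Pool.Agent.H72.ES.arrM G) ha hirr t (by rw [← hf]; exact ht)
      (Pool.Agent.H72.ES.part n (n - j) (Pool.Agent.H72.ES.arrM (G + pol e)) -
        Pool.Agent.H72.ES.part n (n - j) (Pool.Agent.H72.ES.arrM (G + pol e')))
      (by
        refine lt_of_le_of_lt (Polynomial.natDegree_sub_le _ _) ?_
        have h1 := part_deg n (n - j) (Pool.Agent.H72.ES.arrM (G + pol e))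
        have h2 := part_deg n (n - j) (Pool.Agent.H72.ES.arrM (G + pol e'))
        omega)
      (by rw [map_sub, hlast, sub_self])
    have hq' := sub_eq_zero.1 hq
    funext p
    by_cases hp2 : p.1.1.val + p.1.2.val = j
    · have h3 := congrArg (fun q : Polynomial ℤ => q.coeff p.1.2.val) hq'
      rw [part_coeff _ p.1.1.val p.1.2.val (by omega) (by omega), part_coeff _ p.1.1.val p.1.2.val (by omega) (by omega),
        arrM_add, arrM_add, co_of_le e p.2, co_of_le e' p.2] at h3
      have h4 : ix p.1.1.val p.1.2.val p.2 = p := rfl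
      rw [h4] at h3
      linarith
    · exact he p hp2
  obtain ⟨J, hJ⟩ : ∃ J : Finset (Ix j), J = Finset.univ.filter fun p => p.1.1.val + p.1.2.val = j := ⟨_, rfl⟩
  have h1 : T.card ≤ n * (2 * H + 1) ^ (Fintype.card (Ix j) - J.card) := by
    refine fib J H n T (fun c hc => (hT c hc).1) ?_
    intro c hc R hR
    have hch : ∀ e : Ix j → ℤ, ∃ t : ℝ, e ∈ R → ∃ b : ℝ, Lc (G + pol e) t b := by
      intro e
      by_cases he : e ∈ R
      · obtain ⟨t, b, hl⟩ := (hT e (hR e he).1).2
        exact ⟨t, fun _ => ⟨b, hl⟩⟩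
      · exact ⟨0, fun h0 => absurd h0 he⟩
    choose t ht using hch
    have hmaps : ∀ e ∈ R, t e ∈ (f.map (Int.castRingHom ℝ)).roots.toFinset := by
      intro e he
      obtain ⟨b, hl⟩ := ht e he
      have h2 := hroot e (t e) b hl
      rw [Multiset.mem_toFinset, Polynomial.mem_roots, Polynomial.IsRoot.def, Polynomial.eval_map,
        ← algebraMap_int_eq, ← Polynomial.aeval_def]
      · exact h2
      · intro h3
        exact hf0 ((Polynomial.map_eq_zero_iff (RingHom.injective_int (Int.castRingHom ℝ))).1 h3)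
    have hinj : Set.InjOn t R := by
      intro e he e' he' hee
      obtain ⟨b, hl⟩ := ht e he
      obtain ⟨b', hl'⟩ := ht e' he'
      rw [← hee] at hl'
      refine (huniq e e' (t e) b b' hl hl' ?_).symm
      intro p hp
      have hpJ : p ∉ J := by
        rw [hJ, Finset.mem_filter]
        exact fun h2 => hp h2.2
      rw [(hR e he).2 p hpJ, (hR e' he').2 p hpJ]
    have h2 : R.card ≤ (f.map (Int.castRingHom ℝ)).roots.toFinset.card :=
      Finset.card_le_card_of_injOn t hmaps hinj
    refine h2.trans ((Multiset.toFinset_card_le _).trans ((Polynomial.card_roots' _).trans ?_))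
    refine Polynomial.natDegree_map_le.trans ?_
    rw [hf]
    exact (part_deg n 0 _).trans (by omega)
  have hcard : 3 ≤ J.card := by
    have hsub : ({ix 0 j (by omega), ix 1 (j - 1) (by omega), ix 2 (j - 2) (by omega)} : Finset (Ix j)) ⊆ J := by
      intro p hp
      rw [hJ, Finset.mem_filter]
      refine ⟨Finset.mem_univ _, ?_⟩
      simp only [Finset.mem_insert, Finset.mem_singleton] at hp
      rcases hp with rfl | rfl | rfl
      · show 0 + j = j
        omega
      · show 1 + (j - 1) = j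
        omega
      · show 2 + (j - 2) = j
        omega
    refine le_trans ?_ (Finset.card_le_card hsub)
    rw [Finset.card_insert_of_notMem, Finset.card_insert_of_notMem, Finset.card_singleton]
    · rw [Finset.mem_singleton]
      intro h2
      have h3 := congrArg (fun q : Ix j => q.1.1.val) h2
      simp [ix] at h3
    · rw [Finset.mem_insert, Finset.mem_singleton]
      intro h2
      rcases h2 with h2 | h2
      · have h3 := congrArg (fun q : Ix j => q.1.1.val) h2
        simp [ix] at h3
      · have h3 := congrArg (fun q : Ix j => q.1.1.val) h2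
        simp [ix] at h3
  exact h1.trans (Nat.mul_le_mul_left _ (Nat.pow_le_pow_right (by omega) (by omega)))

end Pool.Agent.H88.TF
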