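import Pool.Agent.H72.ES.Final

/-! # [H88 TF DEF] Far points without the condition on contact: fibres over the terms of degree `≥ 2` -/

namespace Pool.Agent.H88.TF

open Finset Polynomial Pool.Agent.H72.ES

/-- agreement of the terms of degree `≥ 2` -/
def Top2 (n : ℕ) (F G : ℕ → ℕ → ℤ) : Prop := ∀ i j, i + j ≤ n → 2 ≤ i + j → F i j = G i j

section

variable {n Q : ℕ} {f : ℤ[X]} {θ : ℝ}

/-- the coefficient of `x^(1-k)` in the branch `y = θ x + cb 1 + cb 2 / x + ...` (`k ≥ 1`) -/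
noncomputable def cb {O : Ord ℝ n Q f θ} {F : ℕ → ℕ → ℤ} (br : Branch O F) (k : ℕ) : ℝ :=
  O.φ (PowerSeries.coeff k br.w) / O.φ O.κ ^ (2 * k - 1)

/-- the branch without its linear part, truncated -/
noncomputable def zb {O : Ord ℝ n Q f θ} {F : ℕ → ℕ → ℤ} (br : Branch O F) (x : ℝ) : ℝ :=
  ∑ k ∈ Icc 2 (n - 2), cb br k / x ^ (k - 1)

/-- an integer point near the truncated branch -/
def Nb {O : Ord ℝ n Q f θ} {F : ℕ → ℕ → ℤ} (br : Branch O F) (P : ℤ × ℤ) : Prop :=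
  |(P.2 : ℝ) - (θ * P.1 + cb br 1 + zb br P.1)| ≤ bb n Q ^ (4 * n) / |(P.1 : ℝ)| ^ (n - 2)

/-- `r` is the first index `≥ 2` with nonzero coefficient, `r ≤ n - 3` -/
structure Rc {O : Ord ℝ n Q f θ} {F : ℕ → ℕ → ℤ} (br : Branch O F) (r : ℕ) : Prop where
  r2 : 2 ≤ r
  rn : r + 3 ≤ n
  ne : cb br r ≠ 0
  lo : ∀ k, 2 ≤ k → k < r → cb br k = 0

end

/-- every real branch has such an `r` -/
def Ncn (n Q : ℕ) (f : ℤ[X]) (G : ℕ → ℕ → ℤ) : Prop :=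
  ∀ θ : ℝ, aeval θ f = 0 → ∀ O : Ord ℝ n Q f θ, ∀ br : Branch O G, ∃ r, Rc br r

/-- EXR: expansion of the points of all curves of a fibre -/
def ExrS : Prop := ∀ (n Q : ℕ) (f : ℤ[X]) (θ : ℝ) (O : Ord ℝ n Q f θ) (F G : ℕ → ℕ → ℤ), 5 ≤ n →
  Norml n Q f F → Norml n Q f G → Top2 n F G → ∀ (br : Branch O G) (x y : ℤ), bb n Q ^ 5 ≤ |(x : ℝ)| →
  |(y : ℝ) / x - θ| ≤ 1 / bb n Q → ev n F x y = 0 → Nb br (x, y)

/-- CBL: upper bound for the coefficients -/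
def CblS : Prop := ∀ (n Q : ℕ) (f : ℤ[X]) (θ : ℝ) (O : Ord ℝ n Q f θ) (G : ℕ → ℕ → ℤ), Norml n Q f G →
  ∀ (br : Branch O G) (k : ℕ), 1 ≤ k → |cb br k| ≤ bb n Q ^ (4 * k)

/-- CBG: lower bound (Liouville) for the nonzero coefficients -/
def CbgS : Prop := ∀ (n Q : ℕ) (f : ℤ[X]) (θ : ℝ) (O : Ord ℝ n Q f θ) (G : ℕ → ℕ → ℤ), Norml n Q f G →
  ∀ (br : Branch O G) (k : ℕ), 1 ≤ k → k ≤ n → cb br k ≠ 0 → 1 ≤ |cb br k| * bb n Q ^ (2 * k * n)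

/-- NCR: no three collinear points in a window, on one side -/
def NcrS : Prop := ∀ (n Q : ℕ) (f : ℤ[X]) (θ : ℝ) (O : Ord ℝ n Q f θ) (G : ℕ → ℕ → ℤ), 5 ≤ n → Norml n Q f G →
  ∀ (br : Branch O G) (r : ℕ), Rc br r → ∀ X : ℝ, bb n Q ^ (60 * n ^ 2) ≤ X → ∀ P : Fin 3 → ℤ × ℤ,
  Function.Injective P → ((∀ i, X ≤ ((P i).1 : ℝ)) ∨ ∀ i, X ≤ -((P i).1 : ℝ)) →
  (∀ i, |((P i).1 : ℝ)| ≤ X ^ (1 + 1 / (3 * (n : ℝ)))) → (∀ i, Nb br (P i)) → ¬ Col (P 0) (P 1) (P 2)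

/-- WNR: the number of far points on all curves of a fibre -/
def WnrS : Prop := ∀ (n Q : ℕ) (f : ℤ[X]) (G : ℕ → ℕ → ℤ), 5 ≤ n → Norml n Q f G → Irreducible f → Ncn n Q f G →
  ∀ S : Finset (ℤ × ℤ), (∀ P ∈ S, ∃ F, Norml n Q f F ∧ Top2 n F G ∧ ev n F P.1 P.2 = 0) →
  (∀ P ∈ S, (Q : ℝ) ^ 2 * bb n Q ^ (60 * n ^ 2) ≤ ((max |P.1| |P.2| : ℤ) : ℝ)) → S.card ≤ 480 * n ^ 3

/-- DGR: `r` exists if `G(X, θ X + b)` has degree at least `3` for all real `θ`, `b` -/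
def DgrS : Prop := ∀ (n Q : ℕ) (f : ℤ[X]) (G : ℕ → ℕ → ℤ), 5 ≤ n → Norml n Q f G →
  (∀ t b : ℝ, 3 ≤ (ev n (cst ℝ[X] G) X (C t * X + C b)).natDegree) → Ncn n Q f G

/-- NRR: bounded exceptions in a fibre over the terms of degree `≥ 2` -/
def NrrS : Prop := ∀ (n H : ℕ), 5 ≤ n → 2 ≤ H → ∀ G : MvPolynomial (Fin 2) ℤ, G.totalDegree = n →
  Irreducible (MvPolynomial.map (Int.castRingHom ℚ) (MvPolynomial.homogeneousComponent n G)) →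
  (∀ t b : ℝ, 3 ≤ (MvPolynomial.aeval ![X, C t * X + C b] G : ℝ[X]).natDegree) →
  ∀ T : Finset (MvPolynomial (Fin 2) ℤ × (ℤ × ℤ)), (∀ q ∈ T, (q.1 - G).totalDegree ≤ 1 ∧
    (∀ m, |q.1.coeff m| ≤ (H : ℤ)) ∧ MvPolynomial.eval ![q.2.1, q.2.2] q.1 = 0 ∧
    (H : ℤ) ^ (600 * n ^ 5) < max |q.2.1| |q.2.2|) → T.card ≤ 480 * n ^ 3

end Pool.Agent.H88.TF
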