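import Pool.Agent.H88.TF.Def

/-! # [H88 TF EXR] Expansion of the points of all curves of a fibre, bounds for the coefficients of the branch

Copy of `H72/ES/ExpandG.lean` (`ev_small_of_top4`, `expand4g`) and `H72/ES/GaForm.lean` (`ga_lower`).
`exr`: `Top2 n F G`, `ev n F x y = 0`: `|ev n G x y| ≤ b |x|` (as `ev_small_of_top4`: three terms, `|y| ≤ Q³ |x|`).
`exp_main hG br x y hx hy T (b |x|)` with `T = n - 1`: `|y/x - (θ + κ ∑_(i<n-1) φ(w_i) (1/κ² 1/x)^i)| ≤ 2 b (b |x| / |x|^n + b (b⁴/|x|)^(n-1))`.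
Multiply by `|x|`: the error is `≤ (2 b² + 2 b^(4n-2)) / |x|^(n-2) ≤ b^(4n) / |x|^(n-2)`; `x κ φ(w_i) (1/κ²)^i x^(-i) = cb i x^(1-i)`
for `i ≥ 1`, `w_0 = 0`.
`cbl`: `|φ w_k| b ≤ b^(2k)` (`exp_phi_coeff`), `1/|κ| ≤ b` (`exp_kappa`): `|cb k| ≤ b^(2k-1) b^(2k-1)`.
`cbg`: `w_k ≠ 0`; `O.liouville`: `1 ≤ |φ w_k| Q^(4n) (ν w_k)^n`, `ν w_k ≤ b^(2k-1)` (as in `ga_lower`), `Q^(4n) ≤ b`,
`|κ|^(2k-1) ≤ Q^(2n(2k-1)) ≤ Q^(4n²) ≤ b` (`k ≤ n`): `1 ≤ |cb k| |κ|^(2k-1) b^(1+(2k-1)n) ≤ |cb k| b^(2+(2k-1)n)`. -/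

namespace Pool.Agent.H88.TF

open Finset Polynomial Pool.Agent.H72.ES

private theorem ev_small2 {n Q : ℕ} {f : ℤ[X]} {θ : ℝ} (O : Ord ℝ n Q f θ) {F G : ℕ → ℕ → ℤ}
    (hF : Norml n Q f F) (hG : Norml n Q f G) (hFG : Top2 n F G) (x y : ℤ) (hx : x ≠ 0)
    (hy : |(y : ℝ) / x - θ| ≤ 1 / bb n Q) (h0 : ev n F x y = 0) :
    |((ev n G x y : ℤ) : ℝ)| ≤ bb n Q * |(x : ℝ)| := by
  have hn := hF.hn
  have hslope := slope_of_near O hF x y hx hy
  have hQ1 := one_le_QR hF.hn hF.hQ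
  have hQ16 := sixteen_leR hF.hn hF.hQ
  have hx1 : 1 ≤ |(x : ℝ)| := by
    have : 1 ≤ |x| := Int.one_le_abs hx
    exact_mod_cast this
  have h1 : ((ev n G x y : ℤ) : ℝ) = ∑ i ∈ range (n + 1), ∑ j ∈ range (n + 1 - i),
      ((G i j - F i j : ℤ) : ℝ) * (x : ℝ) ^ i * (y : ℝ) ^ j := by
    have h2 : ev n G x y = ev n G x y - ev n F x y := by rw [h0, sub_zero]
    rw [h2]
    unfold ev
    rw [← sum_sub_distrib]
    push_cast
    refine sum_congr rfl fun i _ => ?_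
    rw [← sum_sub_distrib]
    refine sum_congr rfl fun j _ => ?_
    ring
  rw [h1]
  have h2 : ∀ i ∈ range (n + 1), ∀ j ∈ range (n + 1 - i),
      |((G i j - F i j : ℤ) : ℝ) * (x : ℝ) ^ i * (y : ℝ) ^ j| ≤
        2 * Q * (Q : ℝ) ^ (3 * n) * |(x : ℝ)| := by
    intro i hi j hj
    simp only [mem_range] at hi hj
    by_cases h : 2 ≤ i + j
    · rw [hFG i j (by omega) h]
      simp
      positivity
    · rw [abs_mul, abs_mul, abs_pow, abs_pow]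
      have e1 : |((G i j - F i j : ℤ) : ℝ)| ≤ 2 * Q := by
        have e2 : |G i j - F i j| ≤ 2 * (Q : ℤ) := by
          have := abs_sub (G i j) (F i j)
          have g1 := hG.bound i j (by omega)
          have g2 := hF.bound i j (by omega)
          linarith
        exact_mod_cast e2
      calc |((G i j - F i j : ℤ) : ℝ)| * |(x : ℝ)| ^ i * |(y : ℝ)| ^ j
          ≤ 2 * Q * |(x : ℝ)| ^ i * ((Q : ℝ) ^ 3 * |(x : ℝ)|) ^ j := by gcongr
        _ = 2 * Q * (Q : ℝ) ^ (3 * j) * |(x : ℝ)| ^ (i + j) := by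
          rw [mul_pow, ← pow_mul, pow_add]
          ring
        _ ≤ 2 * Q * (Q : ℝ) ^ (3 * n) * |(x : ℝ)| ^ 1 := by
          have e3 : (Q : ℝ) ^ (3 * j) ≤ (Q : ℝ) ^ (3 * n) := pow_le_pow_right₀ hQ1 (by omega)
          have e4 : |(x : ℝ)| ^ (i + j) ≤ |(x : ℝ)| ^ 1 := pow_le_pow_right₀ hx1 (by omega)
          gcongr
        _ = _ := by rw [pow_one]
  have h3 : |∑ i ∈ range (n + 1), ∑ j ∈ range (n + 1 - i),
      ((G i j - F i j : ℤ) : ℝ) * (x : ℝ) ^ i * (y : ℝ) ^ j| ≤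
      ∑ i ∈ range (n + 1), ∑ j ∈ range (n + 1 - i),
        2 * Q * (Q : ℝ) ^ (3 * n) * |(x : ℝ)| := by
    refine (abs_sum_le_sum_abs _ _).trans (sum_le_sum fun i hi => ?_)
    exact (abs_sum_le_sum_abs _ _).trans (sum_le_sum fun j hj => h2 i hi j hj)
  refine h3.trans ?_
  have h4 : ∑ i ∈ range (n + 1), ∑ j ∈ range (n + 1 - i),
        2 * (Q : ℝ) * (Q : ℝ) ^ (3 * n) * |(x : ℝ)| ≤
      ∑ i ∈ range (n + 1), ((n : ℝ) + 1) * (2 * Q * (Q : ℝ) ^ (3 * n) * |(x : ℝ)|) := by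
    refine sum_le_sum fun i hi => ?_
    rw [sum_const, nsmul_eq_mul, card_range]
    have : ((n + 1 - i : ℕ) : ℝ) ≤ (n : ℝ) + 1 := by
      have : n + 1 - i ≤ n + 1 := Nat.sub_le _ _
      exact_mod_cast this
    gcongr
  refine h4.trans ?_
  rw [sum_const, nsmul_eq_mul, card_range]
  have hnQ := n_add_one_leR hF.hn hF.hQ
  push_cast
  calc ((n : ℝ) + 1) * (((n : ℝ) + 1) * (2 * Q * (Q : ℝ) ^ (3 * n) * |(x : ℝ)|))
      ≤ Q * (Q * (Q * Q * (Q : ℝ) ^ (3 * n) * |(x : ℝ)|)) := by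
        have : (2 : ℝ) ≤ Q := by linarith
        gcongr
    _ = (Q : ℝ) ^ (3 * n + 4) * |(x : ℝ)| := by ring
    _ ≤ bb n Q * |(x : ℝ)| := by
        have : (Q : ℝ) ^ (3 * n + 4) ≤ bb n Q := Qpow_le_bb hF.hn hF.hQ (by nlinarith)
        gcongr

theorem exr : ExrS := by
  intro n Q f θ O F G h5 hF hG hFG br x y hx hy h0
  have hb := bb_pos hF.hn hF.hQ
  have hb1 := one_le_bb hF.hn hF.hQ
  have hx0 : 0 < |(x : ℝ)| := lt_of_lt_of_le (by positivity) hx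
  have hx1 : 1 ≤ |(x : ℝ)| := le_trans (one_le_pow₀ hb1) hx
  have hxne : (x : ℝ) ≠ 0 := abs_pos.1 hx0
  have hxz : x ≠ 0 := by exact_mod_cast hxne
  have hk : O.φ O.κ ≠ 0 := abs_pos.1 (exp_kappa (O := O) hF).1
  have hEq := ev_small2 O hF hG hFG x y hxz hy h0
  have h := exp_main hG br x y hx hy (n - 1) _ hEq
  have hw0 : PowerSeries.coeff 0 br.w = 0 := by
    rw [PowerSeries.coeff_zero_eq_constantCoeff_apply, br.h0]
  have hterm : ∀ i, 1 ≤ i → (x : ℝ) * (O.φ O.κ * (O.φ (PowerSeries.coeff i br.w) *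
      (1 / O.φ O.κ ^ 2 * (1 / x)) ^ i)) = cb br i / (x : ℝ) ^ (i - 1) := by
    intro i hi
    obtain ⟨k, rfl⟩ : ∃ k, i = k + 1 := ⟨i - 1, by omega⟩
    unfold cb
    have e : 2 * (k + 1) - 1 = 2 * k + 1 := by omega
    have e7 : (1 / O.φ O.κ ^ 2 * (1 / (x : ℝ))) ^ (k + 1) =
        1 / (O.φ O.κ ^ (2 * k + 1) * O.φ O.κ * ((x : ℝ) ^ k * x)) := by
      rw [mul_pow, one_div_pow, one_div_pow, ← pow_mul, one_div_mul_one_div]
      congr 1
    rw [e, Nat.add_sub_cancel, e7]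
    field_simp
  have hsum : (x : ℝ) * (O.φ O.κ * ∑ i ∈ range (n - 1),
      O.φ (PowerSeries.coeff i br.w) * (1 / O.φ O.κ ^ 2 * (1 / x)) ^ i) = cb br 1 + zb br x := by
    obtain ⟨m, rfl⟩ : ∃ m, n = m + 3 := ⟨n - 3, by omega⟩
    have e : m + 3 - 1 = m + 1 + 1 := by omega
    rw [e, sum_range_succ', sum_range_succ', hw0, map_zero, zero_mul, add_zero, mul_add, mul_add,
      hterm 1 le_rfl, mul_sum, mul_sum]
    have e2 : Icc 2 (m + 3 - 2) = Ico 2 (m + 2) := by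
      ext a
      simp only [mem_Icc, mem_Ico]
      omega
    rw [zb, e2, sum_Ico_eq_sum_range]
    have e3 : m + 2 - 2 = m := by omega
    rw [e3, add_comm]
    congr 1
    · simp
    · refine sum_congr rfl fun i _ => ?_
      rw [hterm (i + 1 + 1) (by omega)]
      have e4 : i + 1 + 1 = 2 + i := by omega
      rw [e4]
  show |(y : ℝ) - (θ * (x : ℤ) + cb br 1 + zb br (x : ℤ))| ≤ bb n Q ^ (4 * n) / |(x : ℝ)| ^ (n - 2)
  have e1 : (y : ℝ) - (θ * x + cb br 1 + zb br x) = x * ((y : ℝ) / x -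
      (θ + O.φ O.κ * ∑ i ∈ range (n - 1),
        O.φ (PowerSeries.coeff i br.w) * (1 / O.φ O.κ ^ 2 * (1 / x)) ^ i)) := by
    rw [mul_sub, mul_add, hsum, mul_div_cancel₀ _ hxne]
    ring
  rw [e1, abs_mul]
  refine (mul_le_mul_of_nonneg_left h hx0.le).trans ?_
  have h2 : (4 : ℝ) ≤ bb n Q := by
    refine le_trans ?_ (Q_le_bb hF.hn hF.hQ)
    linarith [sixteen_leR hF.hn hF.hQ]
  obtain ⟨m, rfl⟩ : ∃ m, n = m + 2 := ⟨n - 2, by omega⟩
  have e5 : m + 2 - 1 = m + 1 := by omega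
  have e6 : m + 2 - 2 = m := by omega
  rw [e5, e6]
  set b := bb (m + 2) Q with hbdef
  calc |(x : ℝ)| * (2 * b * (b * |(x : ℝ)| / |(x : ℝ)| ^ (m + 2) +
      b * (1 / |(x : ℝ)| * b ^ 4) ^ (m + 1)))
      = (2 * b ^ 2 + 2 * b ^ (4 * m + 6)) / |(x : ℝ)| ^ m := by
        have e7 : (1 / |(x : ℝ)| * b ^ 4) ^ (m + 1) = b ^ (4 * m + 4) / (|(x : ℝ)| ^ m * |(x : ℝ)|) := by
          rw [mul_pow, one_div_pow, ← pow_mul, one_div_mul_eq_div, ← pow_succ]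
          congr 2
        have e8 : |(x : ℝ)| ^ (m + 2) = |(x : ℝ)| ^ m * |(x : ℝ)| ^ 2 := pow_add _ _ _
        rw [e7, e8]
        field_simp
        ring
    _ ≤ b ^ (4 * (m + 2)) / |(x : ℝ)| ^ m := by
        refine div_le_div_of_nonneg_right ?_ (by positivity)
        have h3 : b ^ 2 ≤ b ^ (4 * m + 6) := pow_le_pow_right₀ hb1 (by omega)
        calc 2 * b ^ 2 + 2 * b ^ (4 * m + 6) ≤ 4 * b ^ (4 * m + 6) := by linarith
          _ ≤ b * b ^ (4 * m + 6) := by gcongr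
          _ = b ^ (4 * m + 7) := by ring
          _ ≤ b ^ (4 * (m + 2)) := pow_le_pow_right₀ hb1 (by omega)

theorem cbl : CblS := by
  intro n Q f θ O G hG br k hk
  have hb := bb_pos hG.hn hG.hQ
  have hb1 := one_le_bb hG.hn hG.hQ
  obtain ⟨hk0, hk1⟩ := exp_kappa (O := O) hG
  obtain ⟨m, rfl⟩ : ∃ m, k = m + 1 := ⟨k - 1, by omega⟩
  have h1 := exp_phi_coeff hG br (m + 1)
  have h2 : |O.φ (PowerSeries.coeff (m + 1) br.w)| ≤ bb n Q ^ (2 * m + 1) := by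
    refine le_of_mul_le_mul_right (h1.trans_eq ?_) hb
    ring
  have e : 2 * (m + 1) - 1 = 2 * m + 1 := by omega
  unfold cb
  rw [e, abs_div, abs_pow, div_eq_mul_one_div, ← one_div_pow]
  calc |O.φ (PowerSeries.coeff (m + 1) br.w)| * (1 / |O.φ O.κ|) ^ (2 * m + 1)
      ≤ bb n Q ^ (2 * m + 1) * bb n Q ^ (2 * m + 1) := by
        have : 0 ≤ 1 / |O.φ O.κ| := by positivity
        gcongr
    _ = bb n Q ^ (4 * m + 2) := by ring
    _ ≤ bb n Q ^ (4 * (m + 1)) := pow_le_pow_right₀ hb1 (by omega)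

theorem cbg : CbgS := by
  intro n Q f θ O G hG br k hk hkn hne
  have hn := hG.hn
  have hQ := hG.hQ
  have hb0 := bb_pos hn hQ
  have hb1 := one_le_bb hn hQ
  have hQ1 := one_le_QR hn hQ
  obtain ⟨m, rfl⟩ : ∃ m, k = m + 1 := ⟨k - 1, by omega⟩
  set w2 : O.R := PowerSeries.coeff (m + 1) br.w with hw2
  have hw0 : w2 ≠ 0 := by
    intro h0
    apply hne
    unfold cb
    rw [← hw2, h0, map_zero, zero_div]
  have hν : O.ν w2 ≤ bb n Q ^ (2 * m + 1) := by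
    have h1 := coeff_le_wn O.subMul (by positivity : (0 : ℝ) ≤ 1 / bb n Q ^ 2) (le_refl (m + 1)) br.w
    have h2 := h1.trans (br.bd (m + 1))
    rw [← hw2] at h2
    rw [one_div_pow, mul_one_div, ← pow_mul, div_le_div_iff₀ (by positivity) hb0, one_mul] at h2
    refine le_of_mul_le_mul_right (h2.trans_eq ?_) hb0
    ring
  have hl := O.liouville w2 hw0
  rw [Real.norm_eq_abs] at hl
  have hQ4 : (Q : ℝ) ^ (4 * n) ≤ bb n Q := Qpow_le_bb hn hQ (by nlinarith)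
  have hνn : O.ν w2 ^ n ≤ bb n Q ^ ((2 * m + 1) * n) := by
    rw [pow_mul]
    exact pow_le_pow_left₀ (O.ν_nonneg _) hν n
  have hl2 : 1 ≤ |O.φ w2| * bb n Q ^ ((2 * m + 1) * n + 1) := by
    refine hl.trans (mul_le_mul_of_nonneg_left ?_ (abs_nonneg _))
    rw [pow_succ, mul_comm]
    exact mul_le_mul hνn hQ4 (by positivity) (by positivity)
  obtain ⟨hκ0, -⟩ := exp_kappa (O := O) hG
  have hκ : |O.φ O.κ| ≤ (Q : ℝ) ^ (2 * n) := by
    have := (O.φ_le O.κ).trans (kappa_bound O hG)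
    rwa [Real.norm_eq_abs] at this
  have hκ3 : |O.φ O.κ| ^ (2 * m + 1) ≤ bb n Q := by
    calc |O.φ O.κ| ^ (2 * m + 1) ≤ ((Q : ℝ) ^ (2 * n)) ^ (2 * m + 1) :=
          pow_le_pow_left₀ (abs_nonneg _) hκ _
      _ = (Q : ℝ) ^ (2 * n * (2 * m + 1)) := by rw [← pow_mul]
      _ ≤ bb n Q := Qpow_le_bb hn hQ (by nlinarith)
  have hga : |O.φ w2| = |cb br (m + 1)| * |O.φ O.κ| ^ (2 * m + 1) := by
    have e : 2 * (m + 1) - 1 = 2 * m + 1 := by omega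
    rw [cb, e, abs_div, abs_pow, div_mul_cancel₀ _ (by positivity)]
  rw [hga] at hl2
  calc 1 ≤ |cb br (m + 1)| * |O.φ O.κ| ^ (2 * m + 1) * bb n Q ^ ((2 * m + 1) * n + 1) := hl2
    _ ≤ |cb br (m + 1)| * bb n Q * bb n Q ^ ((2 * m + 1) * n + 1) := by
        refine mul_le_mul_of_nonneg_right ?_ (by positivity)
        exact mul_le_mul_of_nonneg_left hκ3 (abs_nonneg _)
    _ = |cb br (m + 1)| * bb n Q ^ ((2 * m + 1) * n + 2) := by ring
    _ ≤ |cb br (m + 1)| * bb n Q ^ (2 * (m + 1) * n) :=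
        mul_le_mul_of_nonneg_left (bbpow_mono hn hQ (by nlinarith)) (abs_nonneg _)

end Pool.Agent.H88.TF
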