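import Pool.Agent.H88.TF.Def
import Pool.Agent.H12.TG.Ngp

/-! # [H88 TF NCR] No three collinear points in a window (one side of one branch, contact `r ≤ n - 3`)

`b = bb n Q ≥ 1000`, `δ = 1/(3n)`, `X' = X^(1+δ)`, `E = b^(4n) X^(2-n)` bounds the errors `e_i` in `y_i = θ x_i + c_1 + g(x_i) + e_i`,
`g = zb br`, `g(x) = ∑_(k=r)^(n-2) c_k x^(1-k)` (`c_k = cb br k`; `c_k = 0` for `2 ≤ k < r`).
The negative side: replace `c_k` by `(-1)^(k-1) c_k` (prove the analytic lemma (1) for arbitrary real coefficients).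
(1) On `x ≥ X`: `g''(x) = ∑ k (k-1) c_k x^(-k-1)`, `|c_k| ≤ b^(4k) ≤ b^(4n)`, `|c_r| ≥ b^(-2rn) ≥ b^(-2n²)`, `x ≥ b^(60n²)`: with `σ` the sign of
`c_r`: `σ g''(x) ≥ |c_r| x^(-r-1)`, so `σ g'' ≥ m := |c_r| X'^(-r-1)` on `[X, X']`. Hence `σ g - (m/2) x²` is convex there and for
`x_1 < x_2 < x_3`: `|slope(g; x_2, x_3) - slope(g; x_1, x_2)| ≥ (m/2)(x_3 - x_1)`.
(2) `x_i` are distinct (`x_i = x_j` gives `|y_i - y_j| ≤ 2 E < 1`). Order them, `D = min(x_2-x_1, x_3-x_2)`. Collinear: the slopes of `y` are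
equal, so `m D ≤ (m/2)(x_3-x_1) ≤ 4 E/D`: `D² ≤ 4 E/m ≤ 4 b^(4n+2rn) X^(2-n+(r+1)(1+δ))`.
(3) `r ≤ n - 4`: `1 ≤ D² ≤ 4 b^(4n+2n²) X^(-1+(n-3)/(3n)) ≤ 4 b^(4n+2n²) X^(-2/3)`: contradiction.
(4) `r = n - 3`: `D^(2n) ≤ 4^n b^(4n²+2n²(n-3)) X^((n-2)/3)`. Two points at distance `D` (as in `H72/ES/NoCol.lean`, `noCol_gap`):
`a = (y-y') - α(x-x') ∈ O.R` is nonzero, `|φ a| ≤ |g(x)| + |g(x')| + 2E ≤ b^(4n+1) X^(4-n)`, `ν a ≤ b D`, `O.liouville`:
`X^(n-4) ≤ b^(5n+2) D^n`. So `X^(2(n-4)) ≤ b^(10n+4) 4^n b^(4n²+2n²(n-3)) X^((n-2)/3)`, i.e. `X^((5n-22)/3) ≤ b^(2n³-2n²+11n+4)`,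
against `X ≥ b^(60n²)`: `20n²(5n-22) > 2n³-2n²+11n+4` for `n ≥ 5`.

Proof by helper60, with (4) = `Pool.Agent.H12.TG.ngp` by helper12. The second difference of `x^(-m)` in `u = 1/x_1`, `v = 1/x_2`,
`w = 1/x_3` is `tt u v w m = ∑_(i<m) v^(m-i) (u^(i+1) - w^(i+1))`, so no derivative is used. -/

namespace Pool.Agent.H88.TF

open Finset Polynomial Pool.Agent.H72.ES

/-- second difference of `x ↦ x^(-m)` in the variables `u = 1/x₁`, `v = 1/x₂`, `w = 1/x₃` -/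
private noncomputable def tt (u v w : ℝ) : ℕ → ℝ
  | 0 => 0
  | m + 1 => v * (tt u v w m + u ^ (m + 1) - w ^ (m + 1))

private theorem pow_lower {u w : ℝ} (hw : 0 ≤ w) (h : w ≤ u) (m : ℕ) :
    (u - w) * u ^ m ≤ u ^ (m + 1) - w ^ (m + 1) := by
  have h1 : w ^ m ≤ u ^ m := pow_le_pow_left₀ hw h m
  have h2 : w * w ^ m ≤ w * u ^ m := mul_le_mul_of_nonneg_left h1 hw
  rw [pow_succ, pow_succ]
  linarith

private theorem pow_upper {u w : ℝ} (hw : 0 ≤ w) (h : w ≤ u) (m : ℕ) :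
    u ^ (m + 1) - w ^ (m + 1) ≤ (m + 1) * ((u - w) * u ^ m) := by
  induction m with
  | zero => simp
  | succ m ih =>
    have hu : 0 ≤ u := hw.trans h
    have h1 : w ^ (m + 1) ≤ u ^ (m + 1) := pow_le_pow_left₀ hw h _
    have h2 : (u - w) * w ^ (m + 1) ≤ (u - w) * u ^ (m + 1) := mul_le_mul_of_nonneg_left h1 (by linarith)
    have h3 := mul_le_mul_of_nonneg_left ih hu
    have h4 : u * ((m + 1 : ℝ) * ((u - w) * u ^ m)) = (m + 1) * ((u - w) * u ^ (m + 1)) := by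
      rw [pow_succ]; ring
    rw [h4] at h3
    push_cast
    have h5 : u ^ (m + 1 + 1) - w ^ (m + 1 + 1) = u * (u ^ (m + 1) - w ^ (m + 1)) + (u - w) * w ^ (m + 1) := by
      rw [pow_succ u (m + 1), pow_succ w (m + 1)]; ring
    rw [h5]
    linarith

private theorem tt_nonneg {u v w : ℝ} (hw : 0 ≤ w) (hwu : w ≤ u) (hv : 0 ≤ v) (m : ℕ) : 0 ≤ tt u v w m := by
  induction m with
  | zero => simp [tt]
  | succ m ih =>
    have h1 : w ^ (m + 1) ≤ u ^ (m + 1) := pow_le_pow_left₀ hw hwu _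
    rw [tt]
    exact mul_nonneg hv (by linarith)

private theorem tt_lower {u v w : ℝ} (hw : 0 ≤ w) (hwu : w ≤ u) (hv : 0 ≤ v) (m : ℕ) :
    v * ((u - w) * u ^ m) ≤ tt u v w (m + 1) := by
  rw [tt]
  refine mul_le_mul_of_nonneg_left ?_ hv
  have h1 := pow_lower hw hwu m
  have h2 := tt_nonneg hw hwu hv m
  linarith

private theorem tt_upper {u v w : ℝ} (hw : 0 ≤ w) (hwu : w ≤ u) (hv : 0 ≤ v) (hvu : v ≤ u) (m : ℕ) :
    tt u v w (m + 1) ≤ (m + 1) ^ 2 * (v * ((u - w) * u ^ m)) := by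
  induction m with
  | zero => simp [tt]
  | succ m ih =>
    have hu : 0 ≤ u := hw.trans hwu
    have h0 : 0 ≤ (u - w) * u ^ m := mul_nonneg (by linarith) (pow_nonneg hu _)
    have h1 := pow_upper hw hwu (m + 1)
    have h2 : v * ((u - w) * u ^ m) ≤ u * ((u - w) * u ^ m) := mul_le_mul_of_nonneg_right hvu h0
    have h3 : u * ((u - w) * u ^ m) = (u - w) * u ^ (m + 1) := by rw [pow_succ]; ring
    have h4 : 0 ≤ (u - w) * u ^ (m + 1) := mul_nonneg (by linarith) (pow_nonneg hu _)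
    rw [h3] at h2
    have h5 : tt u v w (m + 1) ≤ (m + 1) ^ 2 * ((u - w) * u ^ (m + 1)) :=
      ih.trans (mul_le_mul_of_nonneg_left h2 (by positivity))
    rw [tt]
    push_cast at h1 ⊢
    have h6 : tt u v w (m + 1) + u ^ (m + 1 + 1) - w ^ (m + 1 + 1) ≤ (m + 1 + 1) ^ 2 * ((u - w) * u ^ (m + 1)) := by
      have h7 : ((m : ℝ) + 1) ^ 2 + (m + 1 + 1) ≤ (m + 1 + 1) ^ 2 := by nlinarith [(Nat.cast_nonneg m : (0 : ℝ) ≤ m)]
      have h8 := mul_le_mul_of_nonneg_right h7 h4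
      linarith
    calc v * (tt u v w (m + 1) + u ^ (m + 1 + 1) - w ^ (m + 1 + 1)) ≤ v * ((m + 1 + 1) ^ 2 * ((u - w) * u ^ (m + 1))) :=
          mul_le_mul_of_nonneg_left h6 hv
      _ = _ := by ring

private theorem tt_id {x1 x2 x3 : ℝ} (h1 : 0 < x1) (h2 : 0 < x2) (h3 : 0 < x3) (m : ℕ) :
    (x2 - x1) * ((1 / x3) ^ m - (1 / x2) ^ m) - (x3 - x2) * ((1 / x2) ^ m - (1 / x1) ^ m) =
      (x2 - x1) * (x3 - x2) * tt (1 / x1) (1 / x2) (1 / x3) m := by
  have e1 : 1 / x3 - 1 / x2 = -((x3 - x2) * (1 / x2) * (1 / x3)) := by field_simp; ring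
  have e2 : 1 / x1 - 1 / x2 = (x2 - x1) * (1 / x1) * (1 / x2) := by field_simp
  generalize 1 / x1 = u at *
  generalize 1 / x2 = v at *
  generalize 1 / x3 = w at *
  induction m with
  | zero => simp [tt]
  | succ m ih =>
    rw [tt, pow_succ, pow_succ, pow_succ]
    linear_combination v * ih + (x2 - x1) * w ^ m * e1 + (x3 - x2) * u ^ m * e2

/-- (1): the second difference of `g = ∑ c_k x^(1-k)` -/
theorem sdiff_lower {n r : ℕ} {c : ℕ → ℝ} {B X X' x1 x2 x3 : ℝ} (hr2 : 2 ≤ r) (hrn : r ≤ n - 2)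
    (hlo : ∀ k, 2 ≤ k → k < r → c k = 0) (hB : ∀ k, 2 ≤ k → k ≤ n - 2 → |c k| ≤ B)
    (hX : 1 ≤ X) (hcX : 2 * ((n : ℝ) ^ 3 * B) ≤ |c r| * X) (h1 : X ≤ x1) (h12 : x1 < x2) (h23 : x2 < x3) (h3 : x3 ≤ X') :
    (x2 - x1) * (x3 - x2) * (x3 - x1) * |c r| ≤ 2 * X' ^ (r + 1) *
      |(x2 - x1) * ((∑ k ∈ Icc 2 (n - 2), c k / x3 ^ (k - 1)) - (∑ k ∈ Icc 2 (n - 2), c k / x2 ^ (k - 1))) -
       (x3 - x2) * ((∑ k ∈ Icc 2 (n - 2), c k / x2 ^ (k - 1)) - (∑ k ∈ Icc 2 (n - 2), c k / x1 ^ (k - 1)))| := by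
  have p1 : 0 < x1 := by linarith
  have p2 : 0 < x2 := by linarith
  have p3 : 0 < x3 := by linarith
  have p4 : 0 < X' := by linarith
  have hB0 : 0 ≤ B := (abs_nonneg _).trans (hB r hr2 hrn)
  set u := 1 / x1 with hu
  set v := 1 / x2 with hv
  set w := 1 / x3 with hw
  have hu0 : 0 < u := by positivity
  have hv0 : 0 < v := by positivity
  have hw0 : 0 < w := by positivity
  have hvu : v ≤ u := one_div_le_one_div_of_le p1 h12.le
  have hwv : w ≤ v := one_div_le_one_div_of_le p2 h23.le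
  have hwu : w ≤ u := hwv.trans hvu
  have hu1 : u ≤ 1 := by rw [hu, div_le_one p1]; linarith
  have hid : (x2 - x1) * ((∑ k ∈ Icc 2 (n - 2), c k / x3 ^ (k - 1)) - (∑ k ∈ Icc 2 (n - 2), c k / x2 ^ (k - 1))) -
       (x3 - x2) * ((∑ k ∈ Icc 2 (n - 2), c k / x2 ^ (k - 1)) - (∑ k ∈ Icc 2 (n - 2), c k / x1 ^ (k - 1))) =
       (x2 - x1) * (x3 - x2) * ∑ k ∈ Icc 2 (n - 2), c k * tt u v w (k - 1) := by
    rw [← sum_sub_distrib, ← sum_sub_distrib, mul_sum, mul_sum, mul_sum, ← sum_sub_distrib]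
    refine sum_congr rfl fun k _ => ?_
    have h := tt_id p1 p2 p3 (k - 1)
    rw [← hu, ← hv, ← hw] at h
    have e : ∀ x : ℝ, c k / x ^ (k - 1) = c k * (1 / x) ^ (k - 1) := by
      intro x
      rw [one_div, inv_pow, div_eq_mul_inv]
    rw [e, e, e, ← hu, ← hv, ← hw]
    linear_combination c k * h
  rw [hid]
  set Z : ℝ := v * ((u - w) * u ^ (r - 2)) with hZ
  have hZ0 : 0 ≤ Z := mul_nonneg hv0.le (mul_nonneg (by linarith) (pow_nonneg hu0.le _))
  have hrm : r ∈ Icc 2 (n - 2) := mem_Icc.2 ⟨hr2, hrn⟩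
  have hmain : |c r| * Z ≤ |∑ k ∈ Icc 2 (n - 2), c k * tt u v w (k - 1)| + n ^ 3 * B * u * Z := by
    rw [← add_sum_erase _ _ hrm]
    have t1 : |c r| * Z ≤ |c r * tt u v w (r - 1)| := by
      rw [abs_mul, abs_of_nonneg (tt_nonneg hw0.le hwu hv0.le _)]
      refine mul_le_mul_of_nonneg_left ?_ (abs_nonneg _)
      have := tt_lower hw0.le hwu hv0.le (r - 2)
      rwa [show r - 2 + 1 = r - 1 by omega] at this
    have t2 : |∑ k ∈ (Icc 2 (n - 2)).erase r, c k * tt u v w (k - 1)| ≤ n ^ 3 * B * u * Z := by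
      refine (abs_sum_le_sum_abs _ _).trans ?_
      have t3 : ∀ k ∈ (Icc 2 (n - 2)).erase r, |c k * tt u v w (k - 1)| ≤ n ^ 2 * B * u * Z := by
        intro k hk
        rw [mem_erase, mem_Icc] at hk
        obtain ⟨hkr, hk2, hkn⟩ := hk
        have hpos : 0 ≤ (n : ℝ) ^ 2 * B * u * Z := by positivity
        rcases Nat.lt_or_gt_of_ne hkr with h | h
        · rw [hlo k hk2 h, zero_mul, abs_zero]
          exact hpos
        · rw [abs_mul, abs_of_nonneg (tt_nonneg hw0.le hwu hv0.le _)]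
          have t4 := tt_upper hw0.le hwu hv0.le hvu (k - 2)
          rw [show k - 2 + 1 = k - 1 by omega] at t4
          have t5 : v * ((u - w) * u ^ (k - 2)) ≤ u * Z := by
            rw [hZ, show k - 2 = (k - 1 - r) + 1 + (r - 2) by omega, pow_add, pow_add, pow_one]
            have t6 : u ^ (k - 1 - r) ≤ 1 := pow_le_one₀ hu0.le hu1
            have t7 : 0 ≤ u * (v * ((u - w) * u ^ (r - 2))) := mul_nonneg hu0.le hZ0
            calc v * ((u - w) * (u ^ (k - 1 - r) * u * u ^ (r - 2))) =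
                u ^ (k - 1 - r) * (u * (v * ((u - w) * u ^ (r - 2)))) := by ring
              _ ≤ 1 * (u * (v * ((u - w) * u ^ (r - 2)))) := mul_le_mul_of_nonneg_right t6 t7
              _ = _ := one_mul _
          have t8 : (((k - 2 : ℕ) : ℝ) + 1) ^ 2 ≤ (n : ℝ) ^ 2 := by
            refine pow_le_pow_left₀ (by positivity) ?_ 2
            exact_mod_cast (by omega : k - 2 + 1 ≤ n)
          have t9 : tt u v w (k - 1) ≤ n ^ 2 * (u * Z) :=
            t4.trans (mul_le_mul t8 t5 (mul_nonneg hv0.le (mul_nonneg (by linarith) (pow_nonneg hu0.le _)))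
              (by positivity))
          calc |c k| * tt u v w (k - 1) ≤ B * (n ^ 2 * (u * Z)) :=
                mul_le_mul (hB k hk2 hkn) t9 (tt_nonneg hw0.le hwu hv0.le _) hB0
            _ = _ := by ring
      refine (sum_le_card_nsmul _ _ _ t3).trans ?_
      rw [nsmul_eq_mul]
      have t4 : (((Icc 2 (n - 2)).erase r).card : ℝ) ≤ n := by
        have : ((Icc 2 (n - 2)).erase r).card ≤ n := by
          refine (card_erase_le).trans ?_
          rw [Nat.card_Icc]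
          omega
        exact_mod_cast this
      calc (((Icc 2 (n - 2)).erase r).card : ℝ) * (n ^ 2 * B * u * Z) ≤ n * (n ^ 2 * B * u * Z) :=
            mul_le_mul_of_nonneg_right t4 (by positivity)
        _ = _ := by ring
    have t3 := abs_add_le (c r * tt u v w (r - 1) + ∑ k ∈ (Icc 2 (n - 2)).erase r, c k * tt u v w (k - 1))
      (-(∑ k ∈ (Icc 2 (n - 2)).erase r, c k * tt u v w (k - 1)))
    rw [abs_neg, add_neg_cancel_right] at t3
    linarith
  have hux : u * x1 = 1 := by rw [hu]; field_simp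
  have hhalf : 2 * (n ^ 3 * B * u) ≤ |c r| := by
    have s1 : 2 * ((n : ℝ) ^ 3 * B) ≤ |c r| * x1 := hcX.trans (mul_le_mul_of_nonneg_left h1 (abs_nonneg _))
    calc 2 * (n ^ 3 * B * u) = (2 * (n ^ 3 * B)) * u := by ring
      _ ≤ (|c r| * x1) * u := mul_le_mul_of_nonneg_right s1 hu0.le
      _ = |c r| * (u * x1) := by ring
      _ = |c r| := by rw [hux, mul_one]
  have hmain2 : |c r| * Z ≤ 2 * |∑ k ∈ Icc 2 (n - 2), c k * tt u v w (k - 1)| := by
    have s1 := mul_le_mul_of_nonneg_right hhalf hZ0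
    linarith
  have hZX : x3 - x1 ≤ X' ^ (r + 1) * Z := by
    have hq : ∀ x : ℝ, 0 < x → x ≤ X' → 1 ≤ X' * (1 / x) := by
      intro x hx hxX
      rw [mul_one_div, le_div_iff₀ hx]
      linarith
    have q1 : 1 ≤ X' * u := hq x1 p1 (by linarith)
    have q2 : 1 ≤ X' * v := hq x2 p2 (by linarith)
    have q3 : 1 ≤ X' * w := hq x3 p3 h3
    have q4 : 1 ≤ (X' * u) ^ (r - 2) := one_le_pow₀ q1
    have q5 : u - w = (x3 - x1) * u * w := by rw [hu, hw]; field_simp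
    have q6 : 1 ≤ (X' * u) * ((X' * v) * ((X' * w) * (X' * u) ^ (r - 2))) :=
      one_le_mul_of_one_le_of_one_le q1 (one_le_mul_of_one_le_of_one_le q2 (one_le_mul_of_one_le_of_one_le q3 q4))
    have q7 : X' ^ (r + 1) * Z = (x3 - x1) * ((X' * u) * ((X' * v) * ((X' * w) * (X' * u) ^ (r - 2)))) := by
      rw [hZ, q5, show r + 1 = 3 + (r - 2) by omega, pow_add, mul_pow]
      ring
    rw [q7]
    exact le_mul_of_one_le_right (by linarith) q6
  have hV : 0 ≤ (x2 - x1) * (x3 - x2) := mul_nonneg (by linarith) (by linarith)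
  rw [abs_mul, abs_of_nonneg hV]
  have s1 : (x3 - x1) * |c r| ≤ 2 * X' ^ (r + 1) * |∑ k ∈ Icc 2 (n - 2), c k * tt u v w (k - 1)| := by
    calc (x3 - x1) * |c r| ≤ (X' ^ (r + 1) * Z) * |c r| := mul_le_mul_of_nonneg_right hZX (abs_nonneg _)
      _ = X' ^ (r + 1) * (|c r| * Z) := by ring
      _ ≤ X' ^ (r + 1) * (2 * |∑ k ∈ Icc 2 (n - 2), c k * tt u v w (k - 1)|) :=
          mul_le_mul_of_nonneg_left hmain2 (by positivity)
      _ = _ := by ring
  calc (x2 - x1) * (x3 - x2) * (x3 - x1) * |c r| = (x2 - x1) * (x3 - x2) * ((x3 - x1) * |c r|) := by ring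
    _ ≤ (x2 - x1) * (x3 - x2) * (2 * X' ^ (r + 1) * |∑ k ∈ Icc 2 (n - 2), c k * tt u v w (k - 1)|) :=
        mul_le_mul_of_nonneg_left s1 hV
    _ = _ := by ring

/-- (2): three collinear points -/
theorem col_bound {n r : ℕ} {c : ℕ → ℝ} {B E X X' t c0 x1 x2 x3 y1 y2 y3 : ℝ} (hr2 : 2 ≤ r) (hrn : r ≤ n - 2)
    (hlo : ∀ k, 2 ≤ k → k < r → c k = 0) (hB : ∀ k, 2 ≤ k → k ≤ n - 2 → |c k| ≤ B)
    (hX : 1 ≤ X) (hcX : 2 * ((n : ℝ) ^ 3 * B) ≤ |c r| * X) (h1 : X ≤ x1) (h12 : x1 < x2) (h23 : x2 < x3) (h3 : x3 ≤ X')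
    (e1 : |y1 - (t * x1 + c0 + ∑ k ∈ Icc 2 (n - 2), c k / x1 ^ (k - 1))| ≤ E)
    (e2 : |y2 - (t * x2 + c0 + ∑ k ∈ Icc 2 (n - 2), c k / x2 ^ (k - 1))| ≤ E)
    (e3 : |y3 - (t * x3 + c0 + ∑ k ∈ Icc 2 (n - 2), c k / x3 ^ (k - 1))| ≤ E)
    (hcol : (x2 - x1) * (y3 - y2) = (x3 - x2) * (y2 - y1)) :
    (x2 - x1) * (x3 - x2) * |c r| ≤ 4 * E * X' ^ (r + 1) := by
  have key := sdiff_lower hr2 hrn hlo hB hX hcX h1 h12 h23 h3
  have hX' : 0 < X' := by linarith
  generalize (∑ k ∈ Icc 2 (n - 2), c k / x1 ^ (k - 1)) = g1 at *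
  generalize (∑ k ∈ Icc 2 (n - 2), c k / x2 ^ (k - 1)) = g2 at *
  generalize (∑ k ∈ Icc 2 (n - 2), c k / x3 ^ (k - 1)) = g3 at *
  have hid : (x2 - x1) * (g3 - g2) - (x3 - x2) * (g2 - g1) =
      (x3 - x2) * ((y2 - (t * x2 + c0 + g2)) - (y1 - (t * x1 + c0 + g1))) -
      (x2 - x1) * ((y3 - (t * x3 + c0 + g3)) - (y2 - (t * x2 + c0 + g2))) := by
    linear_combination hcol
  have hbd : |(x2 - x1) * (g3 - g2) - (x3 - x2) * (g2 - g1)| ≤ 2 * E * (x3 - x1) := by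
    rw [hid]
    have a1 := abs_le.1 e1
    have a2 := abs_le.1 e2
    have a3 := abs_le.1 e3
    have b1 : |(y2 - (t * x2 + c0 + g2)) - (y1 - (t * x1 + c0 + g1))| ≤ 2 * E := by
      rw [abs_le]; constructor <;> linarith
    have b2 : |(y3 - (t * x3 + c0 + g3)) - (y2 - (t * x2 + c0 + g2))| ≤ 2 * E := by
      rw [abs_le]; constructor <;> linarith
    refine (abs_sub _ _).trans ?_
    rw [abs_mul, abs_mul, abs_of_pos (by linarith : 0 < x3 - x2), abs_of_pos (by linarith : 0 < x2 - x1)]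
    have c1 := mul_le_mul_of_nonneg_left b1 (by linarith : 0 ≤ x3 - x2)
    have c2 := mul_le_mul_of_nonneg_left b2 (by linarith : 0 ≤ x2 - x1)
    linarith
  have h4 : ((x2 - x1) * (x3 - x2) * |c r|) * (x3 - x1) ≤ (4 * E * X' ^ (r + 1)) * (x3 - x1) := by
    calc ((x2 - x1) * (x3 - x2) * |c r|) * (x3 - x1) = (x2 - x1) * (x3 - x2) * (x3 - x1) * |c r| := by ring
      _ ≤ 2 * X' ^ (r + 1) * |(x2 - x1) * (g3 - g2) - (x3 - x2) * (g2 - g1)| := key
      _ ≤ 2 * X' ^ (r + 1) * (2 * E * (x3 - x1)) := mul_le_mul_of_nonneg_left hbd (by positivity)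
      _ = _ := by ring
  exact le_of_mul_le_mul_right h4 (by linarith)

/-- sorting three collinear points -/
private theorem sort3 (P : Fin 3 → ℤ × ℤ) (hne : ∀ i j, i ≠ j → (P i).1 ≠ (P j).1) (hc : Col (P 0) (P 1) (P 2)) :
    ∃ i j k, (P i).1 < (P j).1 ∧ (P j).1 < (P k).1 ∧
      ((P j).1 - (P i).1) * ((P k).2 - (P j).2) = ((P k).1 - (P j).1) * ((P j).2 - (P i).2) := by
  have h01 := hne 0 1 (by decide)
  have h02 := hne 0 2 (by decide)
  have h12 := hne 1 2 (by decide)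
  unfold Col at hc
  rcases lt_or_gt_of_ne h01 with a | a <;> rcases lt_or_gt_of_ne h02 with b | b <;>
    rcases lt_or_gt_of_ne h12 with c | c
  · exact ⟨0, 1, 2, a, c, by linear_combination hc⟩
  · exact ⟨0, 2, 1, b, c, by linear_combination -hc⟩
  · omega
  · exact ⟨2, 0, 1, b, a, by linear_combination hc⟩
  · exact ⟨1, 0, 2, a, b, by linear_combination -hc⟩
  · omega
  · exact ⟨1, 2, 0, c, b, by linear_combination hc⟩
  · exact ⟨2, 1, 0, c, a, by linear_combination -hc⟩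

/-- (3), (4): the exponents -/
private theorem fin_num {n r : ℕ} {b Y D C : ℝ} (h5 : 5 ≤ n) (hr2 : 2 ≤ r) (hrn : r + 3 ≤ n) (hb : 1000 ≤ b)
    (hY : b ^ (20 * n) ≤ Y) (hD : 1 ≤ D) (hC : 1 ≤ C * b ^ (2 * r * n))
    (hk : D ^ 2 * C * (Y ^ (3 * n)) ^ (n - 2) ≤ 4 * b ^ (4 * n) * (Y ^ (3 * n + 1)) ^ (r + 1))
    (hg : (Y ^ (3 * n)) ^ (r - 1) ≤ b ^ (5 * n + 2) * D ^ n) : False := by
  have hb1 : 1 ≤ b := by linarith
  have hb0 : 0 < b := by linarith
  have hY1 : 1 ≤ Y := (one_le_pow₀ hb1).trans hY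
  have hY0 : 0 < Y := by linarith
  have hD0 : 0 < D := by linarith
  have h1 : D ^ 2 * Y ^ (3 * n * (n - 2)) ≤ b ^ (4 * n + 2 * r * n + 1) * Y ^ ((3 * n + 1) * (r + 1)) := by
    have s1 : D ^ 2 * Y ^ (3 * n * (n - 2)) * 1 ≤ D ^ 2 * Y ^ (3 * n * (n - 2)) * (C * b ^ (2 * r * n)) :=
      mul_le_mul_of_nonneg_left hC (by positivity)
    calc D ^ 2 * Y ^ (3 * n * (n - 2)) ≤ D ^ 2 * Y ^ (3 * n * (n - 2)) * (C * b ^ (2 * r * n)) := by linarith
      _ = (D ^ 2 * C * (Y ^ (3 * n)) ^ (n - 2)) * b ^ (2 * r * n) := by rw [← pow_mul]; ring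
      _ ≤ (4 * b ^ (4 * n) * (Y ^ (3 * n + 1)) ^ (r + 1)) * b ^ (2 * r * n) :=
          mul_le_mul_of_nonneg_right hk (by positivity)
      _ = 4 * (b ^ (4 * n) * b ^ (2 * r * n) * Y ^ ((3 * n + 1) * (r + 1))) := by rw [← pow_mul]; ring
      _ ≤ b * (b ^ (4 * n) * b ^ (2 * r * n) * Y ^ ((3 * n + 1) * (r + 1))) :=
          mul_le_mul_of_nonneg_right (by linarith) (by positivity)
      _ = _ := by rw [pow_add, pow_add, pow_one]; ring
  rcases Nat.lt_or_ge (r + 3) n with hlt | hge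
  · -- r ≤ n - 4
    have s1 : Y ^ ((3 * n + 1) * (r + 1)) * Y ^ (2 * n) ≤ D ^ 2 * Y ^ (3 * n * (n - 2)) := by
      rw [← pow_add]
      have s2 : (3 * n + 1) * (r + 1) + 2 * n ≤ 3 * n * (n - 2) := by
        obtain ⟨m, rfl⟩ : ∃ m, n = r + 4 + m := ⟨n - (r + 4), by omega⟩
        rw [show r + 4 + m - 2 = r + 2 + m by omega]
        nlinarith
      calc Y ^ ((3 * n + 1) * (r + 1) + 2 * n) ≤ Y ^ (3 * n * (n - 2)) := pow_le_pow_right₀ hY1 s2
        _ ≤ D ^ 2 * Y ^ (3 * n * (n - 2)) := le_mul_of_one_le_left (by positivity) (one_le_pow₀ hD)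
    have s3 : Y ^ (2 * n) ≤ b ^ (4 * n + 2 * r * n + 1) := by
      have s4 : Y ^ (2 * n) * Y ^ ((3 * n + 1) * (r + 1)) ≤ b ^ (4 * n + 2 * r * n + 1) * Y ^ ((3 * n + 1) * (r + 1)) := by
        rw [mul_comm (Y ^ (2 * n))]
        exact s1.trans h1
      exact le_of_mul_le_mul_right s4 (by positivity)
    have s5 : b ^ (20 * n * (2 * n)) ≤ Y ^ (2 * n) := by
      rw [pow_mul]
      exact pow_le_pow_left₀ (by positivity) hY _
    have s6 : b ^ (4 * n + 2 * r * n + 1) < b ^ (20 * n * (2 * n)) := by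
      refine pow_lt_pow_right₀ (by linarith) ?_
      have : r * n ≤ n * n := Nat.mul_le_mul_right _ (by omega)
      nlinarith
    linarith
  · -- r = n - 3
    obtain ⟨s, rfl⟩ : ∃ s, r = s + 2 := ⟨r - 2, by omega⟩
    obtain rfl : n = s + 5 := by omega
    rw [show s + 5 - 2 = s + 3 by omega] at h1
    rw [show s + 2 - 1 = s + 1 by omega] at hg
    set n := s + 5 with hn
    have s1 : D ^ 2 ≤ b ^ (4 * n + 2 * (s + 2) * n + 1) * Y ^ (s + 3) := by
      have s2 : D ^ 2 * Y ^ (3 * n * (s + 3)) ≤ (b ^ (4 * n + 2 * (s + 2) * n + 1) * Y ^ (s + 3)) * Y ^ (3 * n * (s + 3)) := by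
        refine h1.trans (le_of_eq ?_)
        rw [show (3 * n + 1) * (s + 2 + 1) = (s + 3) + 3 * n * (s + 3) by ring, pow_add Y]
        ring
      exact le_of_mul_le_mul_right s2 (by positivity)
    have s3 : D ^ (2 * n) ≤ b ^ ((4 * n + 2 * (s + 2) * n + 1) * n) * Y ^ ((s + 3) * n) := by
      calc D ^ (2 * n) = (D ^ 2) ^ n := pow_mul _ _ _
        _ ≤ (b ^ (4 * n + 2 * (s + 2) * n + 1) * Y ^ (s + 3)) ^ n := pow_le_pow_left₀ (by positivity) s1 n
        _ = _ := by rw [mul_pow, ← pow_mul, ← pow_mul]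
    have s4 : Y ^ (6 * n * (s + 1)) ≤ b ^ (10 * n + 4) * D ^ (2 * n) := by
      have s5 := mul_le_mul hg hg (by positivity) (by positivity)
      refine le_trans (le_of_eq ?_) (s5.trans (le_of_eq ?_))
      · rw [← pow_mul, ← pow_add]
        congr 1
        ring
      · rw [show 10 * n + 4 = (5 * n + 2) + (5 * n + 2) by ring, pow_add, show 2 * n = n + n by ring, pow_add]
        ring
    have s6 : Y ^ (n * (5 * s + 3)) ≤ b ^ (10 * n + 4 + (4 * n + 2 * (s + 2) * n + 1) * n) := by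
      have s7 : Y ^ (n * (5 * s + 3)) * Y ^ ((s + 3) * n) ≤
          b ^ (10 * n + 4 + (4 * n + 2 * (s + 2) * n + 1) * n) * Y ^ ((s + 3) * n) := by
        rw [← pow_add, show n * (5 * s + 3) + (s + 3) * n = 6 * n * (s + 1) by ring]
        calc Y ^ (6 * n * (s + 1)) ≤ b ^ (10 * n + 4) * D ^ (2 * n) := s4
          _ ≤ b ^ (10 * n + 4) * (b ^ ((4 * n + 2 * (s + 2) * n + 1) * n) * Y ^ ((s + 3) * n)) :=
              mul_le_mul_of_nonneg_left s3 (by positivity)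
          _ = _ := by rw [pow_add]; ring
      exact le_of_mul_le_mul_right s7 (by positivity)
    have s8 : b ^ (20 * n * (n * (5 * s + 3))) ≤ Y ^ (n * (5 * s + 3)) := by
      rw [pow_mul]
      exact pow_le_pow_left₀ (by positivity) hY _
    have s9 : b ^ (10 * n + 4 + (4 * n + 2 * (s + 2) * n + 1) * n) < b ^ (20 * n * (n * (5 * s + 3))) := by
      refine pow_lt_pow_right₀ (by linarith) ?_
      rw [hn]
      nlinarith [Nat.zero_le s, Nat.zero_le (s ^ 2), Nat.zero_le (s ^ 3)]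
    linarith

theorem ncr (h1 : CblS) (h2 : CbgS) : NcrS := by
  intro n Q f θ O G h5 hG br r hr X hX P hinj hside hx2 hNb hcol
  have hn := hG.hn
  have hQ := hG.hQ
  have hb1 : 1 ≤ bb n Q := one_le_bb hn hQ
  have hb0 : 0 < bb n Q := bb_pos hn hQ
  have hb1000 : 1000 ≤ bb n Q := thousand_le_bb hn hQ
  have hX1 : 1 ≤ X := (one_le_pow₀ hb1).trans hX
  have hX0 : 0 < X := by linarith
  have hnR : (0 : ℝ) < n := by exact_mod_cast (by omega : 0 < n)
  have hr2 := hr.r2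
  have hrn := hr.rn
  have hxX : ∀ i, X ≤ |((P i).1 : ℝ)| := by
    intro i
    rcases hside with h | h
    · exact (h i).trans (le_abs_self _)
    · exact (h i).trans (neg_le_abs _)
  -- the root of X
  set Y : ℝ := X ^ (1 / (3 * (n : ℝ))) with hY
  have hY1 : 1 ≤ Y := Real.one_le_rpow hX1 (by positivity)
  have hYn : Y ^ (3 * n) = X := by
    rw [hY, ← Real.rpow_natCast, ← Real.rpow_mul hX0.le]
    push_cast
    rw [one_div_mul_cancel (by positivity), Real.rpow_one]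
  have hXY : X ^ (1 + 1 / (3 * (n : ℝ))) = Y ^ (3 * n + 1) := by
    rw [Real.rpow_add hX0, Real.rpow_one, pow_succ, hYn]
  have hYb : bb n Q ^ (20 * n) ≤ Y := by
    have h1 : (bb n Q ^ (20 * n)) ^ (3 * n) ≤ Y ^ (3 * n) := by
      rw [hYn, ← pow_mul]
      refine le_trans (le_of_eq ?_) hX
      congr 1
      ring
    exact le_of_pow_le_pow_left₀ (by omega) (by linarith) h1
  rw [hXY] at hx2
  set X' : ℝ := Y ^ (3 * n + 1) with hX'
  set E : ℝ := bb n Q ^ (4 * n) / X ^ (n - 2) with hE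
  have hEb : ∀ i, |((P i).2 : ℝ) - (θ * (P i).1 + cb br 1 + zb br (P i).1)| ≤ E := by
    intro i
    refine (hNb i).trans ?_
    exact div_le_div_of_nonneg_left (by positivity) (by positivity) (pow_le_pow_left₀ hX0.le (hxX i) _)
  have hE4 : E ≤ 1 / 4 := by
    rw [hE, div_le_iff₀ (by positivity)]
    have s1 : X ≤ X ^ (n - 2) := by
      calc X = X ^ 1 := (pow_one X).symm
        _ ≤ X ^ (n - 2) := pow_le_pow_right₀ hX1 (by omega)
    have s2 : bb n Q ^ (4 * n + 1) ≤ X := (pow_le_pow_right₀ hb1 (by nlinarith)).trans hX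
    have s3 : 1000 * bb n Q ^ (4 * n) ≤ bb n Q ^ (4 * n + 1) := by
      rw [pow_succ, mul_comm]
      exact mul_le_mul_of_nonneg_left hb1000 (by positivity)
    have s4 : 0 < bb n Q ^ (4 * n) := by positivity
    linarith
  -- the first coordinates are different
  have hxne : ∀ i j, i ≠ j → (P i).1 ≠ (P j).1 := by
    intro i j hne hx
    apply hne
    apply hinj
    refine Prod.ext hx ?_
    have h3 := abs_le.1 (hEb i)
    have h4 := abs_le.1 (hEb j)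
    rw [← hx] at h4
    have h5 : |((P i).2 : ℝ) - (P j).2| < 1 := by
      rw [abs_lt]
      constructor <;> linarith
    have h6 : |(P i).2 - (P j).2| < 1 := by exact_mod_cast h5
    rw [Int.abs_lt_one_iff] at h6
    linarith
  obtain ⟨i, j, k, hij, hjk, hc⟩ := sort3 P hxne hcol
  have hijR : ((P i).1 : ℝ) < (P j).1 := by exact_mod_cast hij
  have hjkR : ((P j).1 : ℝ) < (P k).1 := by exact_mod_cast hjk
  have hcR : (((P j).1 : ℝ) - (P i).1) * ((P k).2 - (P j).2) = ((P k).1 - (P j).1) * ((P j).2 - (P i).2) := by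
    exact_mod_cast hc
  -- the bounds for the coefficients
  have hlow : 1 ≤ |cb br r| * bb n Q ^ (2 * r * n) := h2 n Q f θ O G hG br r (by omega) (by omega) hr.ne
  have hup : ∀ k, 2 ≤ k → k ≤ n - 2 → |cb br k| ≤ bb n Q ^ (4 * n) := by
    intro k hk hkn
    exact (h1 n Q f θ O G hG br k (by omega)).trans (pow_le_pow_right₀ hb1 (by omega))
  have hcX : 2 * ((n : ℝ) ^ 3 * bb n Q ^ (4 * n)) ≤ |cb br r| * X := by
    have s1 : (n : ℝ) ≤ bb n Q := by
      have t1 := n_add_one_leR hn hQ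
      have t2 : (Q : ℝ) ^ 1 ≤ bb n Q := Qpow_le_bb hn hQ (by nlinarith)
      rw [pow_one] at t2
      linarith
    have s2 : (n : ℝ) ^ 3 ≤ bb n Q ^ 3 := pow_le_pow_left₀ hnR.le s1 3
    have s3 : 2 * ((n : ℝ) ^ 3 * bb n Q ^ (4 * n)) ≤ bb n Q ^ (4 * n + 4) := by
      calc 2 * ((n : ℝ) ^ 3 * bb n Q ^ (4 * n)) ≤ bb n Q * (bb n Q ^ 3 * bb n Q ^ (4 * n)) := by
            refine mul_le_mul (by linarith) ?_ (by positivity) hb0.le
            exact mul_le_mul_of_nonneg_right s2 (by positivity)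
        _ = _ := by rw [pow_add]; ring
    have s4 : bb n Q ^ (2 * r * n) * bb n Q ^ (4 * n + 4) ≤ X := by
      rw [← pow_add]
      refine (pow_le_pow_right₀ hb1 ?_).trans hX
      have : r * n ≤ n * n := Nat.mul_le_mul_right _ (by omega)
      nlinarith
    calc 2 * ((n : ℝ) ^ 3 * bb n Q ^ (4 * n)) ≤ bb n Q ^ (4 * n + 4) := s3
      _ = 1 * bb n Q ^ (4 * n + 4) := (one_mul _).symm
      _ ≤ (|cb br r| * bb n Q ^ (2 * r * n)) * bb n Q ^ (4 * n + 4) := mul_le_mul_of_nonneg_right hlow (by positivity)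
      _ = |cb br r| * (bb n Q ^ (2 * r * n) * bb n Q ^ (4 * n + 4)) := by ring
      _ ≤ |cb br r| * X := mul_le_mul_of_nonneg_left s4 (abs_nonneg _)
  have key : (((P j).1 : ℝ) - (P i).1) * ((P k).1 - (P j).1) * |cb br r| ≤ 4 * E * X' ^ (r + 1) := by
    rcases hside with hs | hs
    · exact col_bound (c := cb br) (t := θ) (c0 := cb br 1) hr2 (by omega) hr.lo hup hX1 hcX (hs i) hijR hjkR
        ((le_abs_self _).trans (hx2 k)) (hEb i) (hEb j) (hEb k) hcR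
    · have hz : ∀ x : ℝ, zb br x = ∑ k ∈ Icc 2 (n - 2), ((-1) ^ (k - 1) * cb br k) / (-x) ^ (k - 1) := by
        intro x
        unfold zb
        refine sum_congr rfl fun k _ => ?_
        rw [neg_pow x (k - 1), mul_div_mul_left _ _ (pow_ne_zero _ (by norm_num))]
      have habs : ∀ k, |(-1 : ℝ) ^ (k - 1) * cb br k| = |cb br k| := by
        intro k
        rw [abs_mul, abs_pow, abs_neg, abs_one, one_pow, one_mul]
      have hE' : ∀ i, |((P i).2 : ℝ) - (-θ * -((P i).1 : ℝ) + cb br 1 +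
          ∑ k ∈ Icc 2 (n - 2), ((-1) ^ (k - 1) * cb br k) / (-((P i).1 : ℝ)) ^ (k - 1))| ≤ E := by
        intro i
        rw [← hz, neg_mul_neg]
        exact hEb i
      have h := col_bound (c := fun k => (-1 : ℝ) ^ (k - 1) * cb br k) (B := bb n Q ^ (4 * n)) (X := X) (X' := X')
        (t := -θ) (c0 := cb br 1) (x1 := -((P k).1 : ℝ)) (x2 := -((P j).1 : ℝ)) (x3 := -((P i).1 : ℝ)) hr2 (by omega)
        (fun k h2k hkr => by simp only [hr.lo k h2k hkr, mul_zero]) (fun k h2k hkn => by rw [habs]; exact hup k h2k hkn)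
        hX1 (by rw [habs]; exact hcX) (hs k) (by linarith) (by linarith) ((neg_le_abs _).trans (hx2 i)) (hE' k) (hE' j)
        (hE' i) (by linear_combination hcR)
      simp only [habs] at h
      linarith
  -- the smallest gap
  have hgap : ∀ i j, i ≠ j → X ^ (r - 1) ≤ bb n Q ^ (5 * n + 2) * |((P i).1 : ℝ) - (P j).1| ^ n := fun i j hne =>
    Pool.Agent.H12.TG.ngp h1 h5 hG br r hr X hX (P i) (P j) (hxne i j hne) (hxX i) (hxX j) (hNb i) (hNb j)
  have hjine : j ≠ i := by rintro rfl; exact lt_irrefl _ hij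
  have hkjne : k ≠ j := by rintro rfl; exact lt_irrefl _ hjk
  have g1 := hgap j i hjine
  have g2 := hgap k j hkjne
  rw [abs_of_pos (by linarith)] at g1 g2
  have d1 : (1 : ℝ) ≤ (P j).1 - (P i).1 := by
    have : (1 : ℤ) ≤ (P j).1 - (P i).1 := by omega
    exact_mod_cast this
  have d2 : (1 : ℝ) ≤ (P k).1 - (P j).1 := by
    have : (1 : ℤ) ≤ (P k).1 - (P j).1 := by omega
    exact_mod_cast this
  obtain ⟨D, hD1, hDV, hDg⟩ : ∃ D : ℝ, 1 ≤ D ∧ D ^ 2 ≤ (((P j).1 : ℝ) - (P i).1) * ((P k).1 - (P j).1) ∧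
      X ^ (r - 1) ≤ bb n Q ^ (5 * n + 2) * D ^ n := by
    rcases le_total (((P j).1 : ℝ) - (P i).1) (((P k).1 : ℝ) - (P j).1) with h | h
    · exact ⟨_, d1, by rw [sq]; exact mul_le_mul_of_nonneg_left h (by linarith), g1⟩
    · exact ⟨_, d2, by rw [sq]; exact mul_le_mul_of_nonneg_right h (by linarith), g2⟩
  refine fin_num (C := |cb br r|) h5 hr2 hrn hb1000 hYb hD1 hlow ?_ (by rw [hYn]; exact hDg)
  rw [hYn]
  have s1 : D ^ 2 * |cb br r| ≤ 4 * E * X' ^ (r + 1) :=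
    (mul_le_mul_of_nonneg_right hDV (abs_nonneg _)).trans key
  calc D ^ 2 * |cb br r| * X ^ (n - 2) ≤ (4 * E * X' ^ (r + 1)) * X ^ (n - 2) :=
        mul_le_mul_of_nonneg_right s1 (by positivity)
    _ = 4 * bb n Q ^ (4 * n) * X' ^ (r + 1) := by
        rw [hE]
        field_simp

end Pool.Agent.H88.TF
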