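import Pool.Agent.H88.TF.Wcg
import Pool.Agent.H12.TG.Mlo
import Pool.Agent.H88.TF.Nrr
import Pool.Agent.H88.TF.Wnr
import Pool.Agent.H88.TF.Dgr
import Pool.Agent.H88.TF.Exr
import Pool.Agent.H88.TF.Ncr

/-! # [H88 TF FIN] The count for `j ≥ 3` with a power saving, every `G` with irreducible leading form, explicit constant -/

namespace Pool.Agent.H88.TF

open MvPolynomial

theorem wcf (n j : ℕ) (G : MvPolynomial (Fin 2) ℤ) (hn : 4 ≤ n) (hj : 3 ≤ j) (hjn : j < n)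
    (hG : G.totalDegree ≤ n) (hirr : Irreducible (map (Int.castRingHom ℚ) (homogeneousComponent n G))) :
    ∃ W : ℝ, (5 ≤ n → ∀ B : ℕ, 2 ≤ B → (∀ m, |G.coeff m| < (B : ℤ)) → W ≤ (B : ℝ) ^ (n ^ 16)) ∧
      Pool.Agent.H88.TU.Cou n j G W :=
  wcg (nrr (wnr exr (ncr cbl cbg)) dgr) Pool.Agent.H12.TG.mixlo n j G hn hj hjn hG hirr

end Pool.Agent.H88.TF
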