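import Pool.Agent.H88.TF.Asg
import Pool.Agent.H88.TU.Wco

/-! # [H88 TF WCG] One constant `W(G)`, at most `B^(n^16)` for `n ≥ 5` and every fixed part with irreducible leading form (helper88) -/

namespace Pool.Agent.H88.TF

open MvPolynomial Pool.Agent.H8.AA Pool.Agent.H88.A2 Pool.Agent.H88.TU
open Pool.Agent.H12.TU (Hy4)
open Pool.Agent.H12.TG (MixG)
open Pool.Agent.H15.SC (kaps)

/-- `j ≥ n - 2`: no condition on contact -/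
theorem mixG_hi {n j E κ : ℕ} (hn : 5 ≤ n) (hj : n ≤ j + 2) (h : MixS n j E κ) : MixG n j E κ := by
  intro B hB G hG hGB H hH T hT
  exact h B hB G ⟨hn, hG.hj, hG.hjn, hG.deg, hG.irr, fun h0 => absurd h0 (by omega)⟩ hGB H hH T hT

/-- the middle range with a small exponent, `j ≤ n - 3` -/
def MixLo : Prop := ∀ n j : ℕ, 3 ≤ j → j + 3 ≤ n → ∃ κ₀ : ℕ, MixG n j (600 * n ^ 5) κ₀ ∧
  3 * n ^ 2 + 8 * n + 29 + 2 * (κ₀ * j + κ₀) ≤ n ^ 16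

theorem mixG_all (hL : MixLo) (n j : ℕ) (hn : 5 ≤ n) (hj : 3 ≤ j) (hjn : j < n) : ∃ κ₀ : ℕ, MixG n j (600 * n ^ 5) κ₀ ∧
    3 * n ^ 2 + 8 * n + 29 + 2 * (κ₀ * j + κ₀) ≤ n ^ 16 := by
  by_cases h : j + 3 ≤ n
  · exact hL n j hj h
  · obtain ⟨κ₀, h1, h2⟩ := mixS_all n j hn hj hjn
    exact ⟨κ₀, mixG_hi hn (by omega) h1, h2⟩

theorem wcg (hN : NrrS) (hL : MixLo) (n j : ℕ) (G : MvPolynomial (Fin 2) ℤ) (hn : 4 ≤ n) (hj : 3 ≤ j) (hjn : j < n)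
    (hG : G.totalDegree ≤ n) (hirr : Irreducible (map (Int.castRingHom ℚ) (homogeneousComponent n G))) :
    ∃ W : ℝ, (5 ≤ n → ∀ B : ℕ, 2 ≤ B → (∀ m, |G.coeff m| < (B : ℤ)) → W ≤ (B : ℝ) ^ (n ^ 16)) ∧ Cou n j G W := by
  classical
  by_cases h : 5 ≤ n
  · obtain ⟨B0, hB0, hGB0⟩ := Pool.Agent.H88.TS.exists_bound G
    have hex : ∃ B : ℕ, 2 ≤ B ∧ ∀ m, |G.coeff m| < (B : ℤ) := ⟨B0, hB0, fun m => by have := hGB0 m; omega⟩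
    obtain ⟨κ₀, h1, h2⟩ := mixG_all hL n j h hj hjn
    refine ⟨((Nat.find hex : ℕ) : ℝ) ^ (n ^ 16), ?_, ?_⟩
    · intro _ B hB hGB
      have h3 : Nat.find hex ≤ B := Nat.find_min' hex ⟨hB, hGB⟩
      refine pow_le_pow_left₀ (Nat.cast_nonneg _) (by exact_mod_cast h3) _
    · exact main_exg hN n j κ₀ (n ^ 16) h hj hjn h1 h2 (Nat.find hex) (Nat.find_spec hex).1 G
        ⟨hn, hj, hjn, hG, hirr⟩ (fun m => (Nat.find_spec hex).2 m)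
  · obtain ⟨C, hC⟩ := Pool.Agent.H12.TU.main4 n j G ⟨hn, hj, hjn, hG, hirr⟩
    exact ⟨C, fun h5 => absurd h5 h, hC⟩

end Pool.Agent.H88.TF
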